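import Mathlib

set_option autoImplicit false

open Complex

namespace Pool.Agent.Results.MP_32bf8a_an.TwoSparse

/-- values of Hermitian forms on the vectors `(s r, t r)` -/
noncomputable def A (s t : Fin 4 → ℂ) : (ℝ × ℝ × ℂ) →ₗ[ℝ] (Fin 4 → ℝ) where
  toFun X := fun r => X.1 * normSq (s r) + X.2.1 * normSq (t r) +
    2 * (X.2.2 * (s r * (starRingEnd ℂ) (t r))).re
  map_add' := by
    intro X Y
    ext r
    simp only [Prod.fst_add, Prod.snd_add, Pi.add_apply, add_mul, Complex.add_re]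
    ring
  map_smul' := by
    intro c X
    ext r
    simp only [Prod.smul_fst, Prod.smul_snd, smul_eq_mul, RingHom.id_apply, Pi.smul_apply,
      Complex.real_smul, Complex.mul_re, Complex.mul_im, Complex.ofReal_re, Complex.ofReal_im]
    ring

theorem A_apply (s t : Fin 4 → ℂ) (p q : ℝ) (z : ℂ) (r : Fin 4) :
    A s t (p, q, z) r = p * normSq (s r) + q * normSq (t r) +
      2 * (z * (s r * (starRingEnd ℂ) (t r))).re := rfl

theorem id1 (s t z : ℂ) (p q : ℝ) : normSq (s * p + t * (starRingEnd ℂ) z) =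
    p * (p * normSq s + q * normSq t + 2 * (z * (s * (starRingEnd ℂ) t)).re) +
      (normSq z - p * q) * normSq t := by
  simp only [Complex.normSq_apply, Complex.mul_re, Complex.mul_im, Complex.add_re, Complex.add_im,
    Complex.conj_re, Complex.conj_im, Complex.ofReal_re, Complex.ofReal_im]
  ring

theorem id2 (s t z : ℂ) (p q : ℝ) : normSq (s * z + t * q) =
    q * (p * normSq s + q * normSq t + 2 * (z * (s * (starRingEnd ℂ) t)).re) +
      (normSq z - p * q) * normSq s := by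
  simp only [Complex.normSq_apply, Complex.mul_re, Complex.mul_im, Complex.add_re, Complex.add_im,
    Complex.conj_re, Complex.conj_im, Complex.ofReal_re, Complex.ofReal_im]
  ring

/-- phase retrieval on the pair of columns -/
def PairOK (s t : Fin 4 → ℂ) : Prop :=
  ∀ a b c d : ℂ, (∀ r, normSq (s r * a + t r * b) = normSq (s r * c + t r * d)) →
    ∃ u : ℂ, a = u * c ∧ b = u * d

def Ind (s t : Fin 4 → ℂ) : Prop := ∀ a b : ℂ, (∀ r, s r * a + t r * b = 0) → a = 0 ∧ b = 0

theorem A_inj {s t : Fin 4 → ℂ} (h : PairOK s t) (h' : Ind s t) :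
    Function.Injective (A s t) := by
  rw [injective_iff_map_eq_zero]
  rintro ⟨p, q, z⟩ hX
  have hr : ∀ r, p * normSq (s r) + q * normSq (t r) +
      2 * (z * (s r * (starRingEnd ℂ) (t r))).re = 0 := fun r => congrFun hX r
  have hp : p = 0 := by
    have h1 : ∀ r, normSq (s r * p + t r * (starRingEnd ℂ) z) =
        (normSq z - p * q) * normSq (t r) := by
      intro r
      rw [id1 (s r) (t r) z p q, hr r, mul_zero, zero_add]
    rcases le_or_gt 0 (normSq z - p * q) with h2 | h2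
    · obtain ⟨u, hu, -⟩ := h p ((starRingEnd ℂ) z) 0 (Real.sqrt (normSq z - p * q) : ℝ) (by
        intro r
        rw [h1 r, mul_zero, zero_add, normSq_mul, normSq_ofReal, Real.mul_self_sqrt h2, mul_comm])
      rw [mul_zero] at hu
      exact_mod_cast hu
    · have h3 : ∀ r, s r * p + t r * (starRingEnd ℂ) z = 0 := by
        intro r
        rw [← normSq_eq_zero]
        refine le_antisymm ?_ (normSq_nonneg _)
        rw [h1 r]
        exact mul_nonpos_of_nonpos_of_nonneg h2.le (normSq_nonneg _)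
      exact_mod_cast (h' _ _ h3).1
  have hq : q = 0 := by
    have h1 : ∀ r, normSq (s r * z + t r * q) =
        (normSq z - p * q) * normSq (s r) := by
      intro r
      rw [id2 (s r) (t r) z p q, hr r, mul_zero, zero_add]
    rcases le_or_gt 0 (normSq z - p * q) with h2 | h2
    · obtain ⟨u, -, hu⟩ := h z q (Real.sqrt (normSq z - p * q) : ℝ) 0 (by
        intro r
        rw [h1 r, mul_zero, add_zero, normSq_mul, normSq_ofReal, Real.mul_self_sqrt h2, mul_comm])
      rw [mul_zero] at hu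
      exact_mod_cast hu
    · have h3 : ∀ r, s r * z + t r * q = 0 := by
        intro r
        rw [← normSq_eq_zero]
        refine le_antisymm ?_ (normSq_nonneg _)
        rw [h1 r]
        exact mul_nonpos_of_nonpos_of_nonneg h2.le (normSq_nonneg _)
      exact_mod_cast (h' _ _ h3).2
  have hz : z = 0 := by
    obtain ⟨u, hu1, hu2⟩ := h z 1 z (-1) (by
      intro r
      have h1 := hr r
      rw [hp, hq] at h1
      simp only [Complex.normSq_apply, Complex.mul_re, Complex.mul_im, Complex.add_re,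
        Complex.add_im, Complex.conj_re, Complex.conj_im, Complex.one_re, Complex.one_im,
        Complex.neg_re, Complex.neg_im] at h1 ⊢
      linarith)
    have h3 : u = -1 := by
      linear_combination hu2
    rw [h3] at hu1
    linear_combination (1/2 : ℂ) * hu1
  rw [hp, hq, hz]
  rfl

theorem A_surj {s t : Fin 4 → ℂ} (h : PairOK s t) (h' : Ind s t) :
    Function.Surjective (A s t) := by
  have h1 : Module.finrank ℝ (ℝ × ℝ × ℂ) = Module.finrank ℝ (Fin 4 → ℝ) := by
    rw [Module.finrank_prod, Module.finrank_prod, Complex.finrank_real_complex]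
    simp
  exact (LinearMap.injective_iff_surjective_of_finrank_eq_finrank h1).mp (A_inj h h')

theorem A_factor (p q : ℝ) (z : ℂ) (hq : 0 < q) (h : p * q = normSq z) :
    ∃ a b : ℂ, b ≠ 0 ∧ ∀ (s t : Fin 4 → ℂ) (r : Fin 4),
      A s t (p, q, z) r = normSq (s r * a + t r * b) := by
  have h0 : (0:ℝ) < Real.sqrt q := Real.sqrt_pos.mpr hq
  refine ⟨z / (Real.sqrt q : ℝ), (Real.sqrt q : ℝ), by exact_mod_cast h0.ne', ?_⟩
  intro s t r
  have h1 : s r * (z / (Real.sqrt q : ℝ)) + t r * (Real.sqrt q : ℝ) =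
      (s r * z + t r * q) / (Real.sqrt q : ℝ) := by
    have h2 : ((Real.sqrt q : ℝ) : ℂ) ≠ 0 := by exact_mod_cast h0.ne'
    have h3 : (q : ℂ) = (Real.sqrt q : ℝ) * (Real.sqrt q : ℝ) := by
      rw [← Complex.ofReal_mul, Real.mul_self_sqrt hq.le]
    rw [h3]
    field_simp
  rw [h1, normSq_div, normSq_ofReal, Real.mul_self_sqrt hq.le, id2 (s r) (t r) z p q, ← h, sub_self,
    zero_mul, add_zero, mul_div_cancel_left₀ _ hq.ne']
  rfl

/-- columns `s,t` versus columns `s,w` -/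
def DiffOK (s t w : Fin 4 → ℂ) : Prop :=
  ∀ a b c d : ℂ, (∀ r, normSq (s r * a + t r * b) = normSq (s r * c + w r * d)) → b = 0

theorem Zp {s t w : Fin 4 → ℂ} (h1 : PairOK s t) (h2 : Ind s t) (h3 : DiffOK s t w)
    (p q : ℝ) (z : ℂ) (P Q : ℝ) (Z : ℂ) (hq : 0 < q) (hpq : p * q = normSq z) (hQ : 0 ≤ Q)
    (hPQ : P * Q = normSq Z) (hA : A s t (p, q, z) = A s w (P, Q, Z)) : False := by
  rcases hQ.eq_or_lt with h0 | h0
  · subst h0
    rw [mul_zero] at hPQ
    have hZ : Z = 0 := normSq_eq_zero.mp hPQ.symm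
    subst hZ
    have h4 : A s w (P, 0, 0) = A s t (P, 0, 0) := by
      ext r
      rw [A_apply, A_apply]
      simp
    rw [h4] at hA
    have h5 := A_inj h1 h2 hA
    have h6 : q = 0 := (Prod.ext_iff.mp (Prod.ext_iff.mp h5).2).1
    exact hq.ne' h6
  · obtain ⟨a, b, hb, hab⟩ := A_factor p q z hq hpq
    obtain ⟨c, d, hd, hcd⟩ := A_factor P Q Z h0 hPQ
    refine hb (h3 a b c d ?_)
    intro r
    rw [← hab s t r, ← hcd s w r, hA]

theorem facet {s w : ℂ} (hs : s ≠ 0) (P Q : ℝ) (Z : ℂ)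
    (h : P * normSq s + Q * normSq w + 2 * (Z * (s * (starRingEnd ℂ) w)).re = 0) :
    P * Q - normSq Z ≤ 0 := by
  have h1 := id2 s w Z P Q
  rw [h, mul_zero, zero_add] at h1
  have h2 : 0 ≤ (normSq Z - P * Q) * normSq s := by
    rw [← h1]
    exact normSq_nonneg _
  have h3 : 0 < normSq s := normSq_pos.mpr hs
  have h4 : 0 ≤ normSq Z - P * Q := nonneg_of_mul_nonneg_left h2 h3
  linarith

theorem cubic_pos (a3 a2 a1 a0 t0 : ℝ) (h : 0 < a3) :
    ∃ T, t0 ≤ T ∧ 0 < a3 * T ^ 3 + a2 * T ^ 2 + a1 * T + a0 := by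
  obtain ⟨K, hK⟩ : ∃ K, K = |a2| + |a1| + |a0| := ⟨_, rfl⟩
  have hK0 : 0 ≤ K := by rw [hK]; positivity
  refine ⟨|t0| + 1 + K / a3, ?_, ?_⟩
  · have := le_abs_self t0
    have : 0 ≤ K / a3 := by positivity
    linarith
  · obtain ⟨T, hT⟩ : ∃ T, T = |t0| + 1 + K / a3 := ⟨_, rfl⟩
    rw [← hT]
    have hT1 : 1 ≤ T := by
      rw [hT]
      have : 0 ≤ K / a3 := by positivity
      have := abs_nonneg t0
      linarith
    have hT2 : K < a3 * T := by
      have h1 : K / a3 < T := by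
        rw [hT]
        have := abs_nonneg t0
        linarith
      rwa [div_lt_iff₀ h, mul_comm] at h1
    have h3 : a3 * T ^ 3 > K * T ^ 2 := by
      have : 0 < T ^ 2 := by positivity
      nlinarith
    have h4 : -(|a2|) * T ^ 2 ≤ a2 * T ^ 2 := by
      have := neg_abs_le a2
      have h5 : 0 ≤ T ^ 2 := by positivity
      nlinarith
    have h5 : -(|a1|) * T ^ 2 ≤ a1 * T := by
      have h6 := neg_abs_le a1
      have h7 : T ≤ T ^ 2 := by nlinarith
      have h8 := abs_nonneg a1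
      nlinarith
    have h6 : -(|a0|) * T ^ 2 ≤ a0 := by
      have h6 := neg_abs_le a0
      have h7 : 1 ≤ T ^ 2 := by nlinarith
      have h8 := abs_nonneg a0
      nlinarith
    have h7 : K * T ^ 2 = |a2| * T ^ 2 + |a1| * T ^ 2 + |a0| * T ^ 2 := by
      rw [hK]
      ring
    linarith


theorem A_one (s t : Fin 4 → ℂ) (z : ℂ) (r : Fin 4) :
    A s t (normSq z, 1, z) r = normSq (s r * z + t r) := by
  rw [A_apply]
  simp only [Complex.normSq_apply, Complex.mul_re, Complex.mul_im, Complex.add_re, Complex.add_im,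
    Complex.conj_re, Complex.conj_im]
  ring

theorem lin_sum (φ : (Fin 4 → ℝ) →ₗ[ℝ] ℝ) (m : Fin 4 → ℝ) :
    φ m = ∑ r, φ (Pi.single r 1) * m r := by
  rw [LinearMap.pi_apply_eq_sum_univ φ m]
  refine Finset.sum_congr rfl fun r _ => ?_
  rw [smul_eq_mul, mul_comm]
  congr 2
  ext j
  by_cases h : r = j
  · subst h
    simp
  · rw [if_neg h, Pi.single_eq_of_ne (Ne.symm h)]

theorem tang {s t w : Fin 4 → ℂ} (h1 : PairOK s t) (h2 : Ind s t) (h1' : PairOK s w)
    (h2' : Ind s w) (h3 : DiffOK s t w) :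
    ∃ c : Fin 4 → ℝ, (∑ r, (c r : ℂ) * (s r * (starRingEnd ℂ) (s r)) = 0) ∧
      (∑ r, (c r : ℂ) * (s r * (starRingEnd ℂ) (t r)) = 0) ∧
      (∑ r, (c r : ℂ) * (s r * (starRingEnd ℂ) (w r)) = 0) ∧
      (∑ r, c r * normSq (t r)) < 0 ∧ 0 < ∑ r, c r * normSq (w r) := by
  obtain ⟨B, hB⟩ : ∃ B : (Fin 4 → ℝ) →ₗ[ℝ] (ℝ × ℝ × ℂ), ∀ m, A s w (B m) = m :=
    ⟨(LinearEquiv.ofBijective (A s w) ⟨A_inj h1' h2', A_surj h1' h2'⟩).symm.toLinearMap,
      fun m => (LinearEquiv.ofBijective (A s w) ⟨A_inj h1' h2', A_surj h1' h2'⟩).apply_symm_apply m⟩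
  have hB' : ∀ X, B (A s w X) = X := by
    intro X
    apply A_inj h1' h2'
    rw [hB]
  obtain ⟨φ, hφ⟩ : ∃ φ : (Fin 4 → ℝ) →ₗ[ℝ] ℝ, ∀ m, φ m = (B m).2.1 :=
    ⟨(LinearMap.fst ℝ ℝ ℂ).comp ((LinearMap.snd ℝ ℝ (ℝ × ℂ)).comp B), fun m => rfl⟩
  obtain ⟨c, hc⟩ : ∃ c : Fin 4 → ℝ, ∀ r, c r = φ (Pi.single r 1) := ⟨fun r => φ (Pi.single r 1), fun r => rfl⟩
  have hφc : ∀ m, φ m = ∑ r, c r * m r := by
    intro m
    rw [lin_sum φ m]
    refine Finset.sum_congr rfl fun r _ => ?_
    rw [hc r]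
  have hss : ∑ r, c r * normSq (s r) = 0 := by
    have h5 : φ (A s w (1, 0, 0)) = 0 := by rw [hφ, hB']
    rw [hφc] at h5
    rw [← h5]
    refine Finset.sum_congr rfl fun r _ => ?_
    rw [A_apply]
    simp
  have hww : ∑ r, c r * normSq (w r) = 1 := by
    have h5 : φ (A s w (0, 1, 0)) = 1 := by rw [hφ, hB']
    rw [hφc] at h5
    rw [← h5]
    refine Finset.sum_congr rfl fun r _ => ?_
    rw [A_apply]
    simp
  have hre : ∀ (u : Fin 4 → ℂ) (z : ℂ), φ (A s u (0, 0, z)) =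
      2 * (z * ∑ r, (c r : ℂ) * (s r * (starRingEnd ℂ) (u r))).re := by
    intro u z
    rw [hφc, Finset.mul_sum, Complex.re_sum, Finset.mul_sum]
    refine Finset.sum_congr rfl fun r _ => ?_
    rw [A_apply]
    have h6 : z * ((c r : ℂ) * (s r * (starRingEnd ℂ) (u r))) =
        (c r : ℂ) * (z * (s r * (starRingEnd ℂ) (u r))) := by ring
    rw [h6, Complex.re_ofReal_mul]
    ring
  have hsw : ∑ r, (c r : ℂ) * (s r * (starRingEnd ℂ) (w r)) = 0 := by
    have h5 := hre w 1
    have h6 := hre w I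
    rw [hφ, hB'] at h5 h6
    apply Complex.ext
    · rw [one_mul] at h5
      rw [Complex.zero_re]
      have h7 : (0:ℝ) = 2 * (∑ r, (c r : ℂ) * (s r * (starRingEnd ℂ) (w r))).re := h5
      linarith
    · rw [Complex.I_mul_re] at h6
      rw [Complex.zero_im]
      have h7 : (0:ℝ) = 2 * -(∑ r, (c r : ℂ) * (s r * (starRingEnd ℂ) (w r))).im := h6
      linarith
  obtain ⟨β, hβ⟩ : ∃ β, β = ∑ r, (c r : ℂ) * (s r * (starRingEnd ℂ) (t r)) := ⟨_, rfl⟩
  obtain ⟨⟨p0, α, Z0⟩, hL0⟩ : ∃ Y : ℝ × ℝ × ℂ, Y = B (A s t (0, 1, 0)) := ⟨_, rfl⟩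
  have hα : ∑ r, c r * normSq (t r) = α := by
    have h5 : φ (A s t (0, 1, 0)) = α := by rw [hφ, ← hL0]
    rw [hφc] at h5
    rw [← h5]
    refine Finset.sum_congr rfl fun r _ => ?_
    rw [A_apply]
    simp
  have hL1 : B (A s t (1, 0, 0)) = (1, 0, 0) := by
    have h5 : A s t (1, 0, 0) = A s w (1, 0, 0) := by
      ext r
      rw [A_apply, A_apply]
      simp
    rw [h5, hB']
  have hβ0 : β = 0 := by
    by_contra hne
    have hN : 0 < normSq β := normSq_pos.mpr hne
    obtain ⟨⟨p1, q1, Z1⟩, hL2⟩ : ∃ Y : ℝ × ℝ × ℂ, Y = B (A s t (0, 0, (starRingEnd ℂ) β)) :=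
      ⟨_, rfl⟩
    have hq1 : q1 = 2 * normSq β := by
      have h5 := hre t ((starRingEnd ℂ) β)
      rw [hφ, ← hL2, ← hβ] at h5
      change q1 = _ at h5
      rw [h5]
      simp only [Complex.normSq_apply, Complex.mul_re, Complex.conj_re, Complex.conj_im]
      ring
    have hL : ∀ τ : ℝ, B (A s t (τ ^ 2 * normSq β, 1, (τ : ℂ) * (starRingEnd ℂ) β)) =
        (τ ^ 2 * normSq β + p0 + τ * p1, α + τ * q1, Z0 + τ * Z1) := by
      intro τ
      have h6 : ((τ ^ 2 * normSq β, 1, (τ : ℂ) * (starRingEnd ℂ) β) : ℝ × ℝ × ℂ) =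
          (τ ^ 2 * normSq β) • ((1, 0, 0) : ℝ × ℝ × ℂ) + (0, 1, 0) +
            τ • (0, 0, (starRingEnd ℂ) β) := by
        ext <;> simp
      rw [h6, map_add, map_add, map_smul, map_smul, map_add, map_add, map_smul, map_smul, hL1,
        ← hL0, ← hL2]
      ext <;> simp
    obtain ⟨D, hD⟩ : ∃ D : ℝ → ℝ, ∀ τ, D τ = (τ ^ 2 * normSq β + p0 + τ * p1) * (α + τ * q1) -
      normSq (Z0 + τ * Z1) := ⟨fun τ => _, fun τ => rfl⟩
    have hD2 : ∀ τ, D τ = (normSq β * q1) * τ ^ 3 +
        (normSq β * α + p1 * q1 - normSq Z1) * τ ^ 2 +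
        (p0 * q1 + p1 * α - 2 * (Z0 * (starRingEnd ℂ) Z1).re) * τ + (p0 * α - normSq Z0) := by
      intro τ
      rw [hD]
      simp only [Complex.normSq_apply, Complex.mul_re, Complex.mul_im, Complex.add_re,
        Complex.add_im, Complex.conj_re, Complex.conj_im, Complex.ofReal_re, Complex.ofReal_im]
      ring
    have hcont : Continuous D := by
      have : D = fun τ => (normSq β * q1) * τ ^ 3 +
        (normSq β * α + p1 * q1 - normSq Z1) * τ ^ 2 +
        (p0 * q1 + p1 * α - 2 * (Z0 * (starRingEnd ℂ) Z1).re) * τ + (p0 * α - normSq Z0) :=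
        funext hD2
      rw [this]
      fun_prop
    have hq1' : 0 < q1 := by rw [hq1]; linarith
    obtain ⟨T, hT0, hT⟩ := cubic_pos (normSq β * q1) (normSq β * α + p1 * q1 - normSq Z1)
      (p0 * q1 + p1 * α - 2 * (Z0 * (starRingEnd ℂ) Z1).re) (p0 * α - normSq Z0) (-α / q1)
      (mul_pos hN hq1')
    rw [← hD2] at hT
    have hD0 : D (-α / q1) ≤ 0 := by
      rw [hD]
      have h7 : α + -α / q1 * q1 = 0 := by
        field_simp
        ring
      rw [h7, mul_zero, zero_sub]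
      exact neg_nonpos.mpr (normSq_nonneg _)
    obtain ⟨τ, ⟨hτ1, -⟩, hτ2⟩ := intermediate_value_Icc hT0 hcont.continuousOn ⟨hD0, hT.le⟩
    rw [hD] at hτ2
    refine Zp h1 h2 h3 (τ ^ 2 * normSq β) 1 ((τ : ℂ) * (starRingEnd ℂ) β)
      (τ ^ 2 * normSq β + p0 + τ * p1) (α + τ * q1) (Z0 + τ * Z1) one_pos ?_ ?_ ?_ ?_
    · rw [normSq_mul, normSq_ofReal, normSq_conj]
      ring
    · rw [div_le_iff₀ hq1'] at hτ1
      linarith
    · linarith
    · rw [← hL τ, hB]
  refine ⟨c, ?_, ?_, hsw, ?_, by rw [hww]; exact one_pos⟩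
  · have h8 : ∑ r, (c r : ℂ) * (s r * (starRingEnd ℂ) (s r)) =
        ((∑ r, c r * normSq (s r) : ℝ) : ℂ) := by
      push_cast
      refine Finset.sum_congr rfl fun r _ => ?_
      rw [Complex.mul_conj]
    rw [h8, hss]
    simp
  · rw [← hβ, hβ0]
  · rw [hα]
    have hφA : ∀ (p q : ℝ) (z : ℂ), φ (A s t (p, q, z)) = q * α := by
      intro p q z
      have h6 : ((p, q, z) : ℝ × ℝ × ℂ) =
          p • ((1, 0, 0) : ℝ × ℝ × ℂ) + q • (0, 1, 0) + (0, 0, z) := by
        ext <;> simp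
      rw [h6]
      simp only [map_add, map_smul]
      rw [hre t z, ← hβ, hβ0, mul_zero, Complex.zero_re, mul_zero, add_zero, hφ, hφ, hL1, ← hL0]
      simp
    have hα0 : α ≠ 0 := by
      intro h0
      obtain ⟨⟨p, q, z⟩, hX⟩ := A_surj h1 h2 (A s w (0, 1, 0))
      have h9 := hφA p q z
      rw [hX, hφ, hB', h0, mul_zero] at h9
      exact one_ne_zero h9
    by_contra hcon
    have hαpos : 0 < α := lt_of_le_of_ne (not_lt.mp hcon) (Ne.symm hα0)
    -- a row in which `s` does not vanish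
    obtain ⟨r, hr⟩ : ∃ r, s r ≠ 0 := by
      by_contra hall
      push Not at hall
      have := (h2 1 0 (fun r => by rw [hall r]; simp)).1
      exact one_ne_zero this
    obtain ⟨z, hz⟩ : ∃ z, z = -t r / s r := ⟨_, rfl⟩
    have hz0 : s r * z + t r = 0 := by
      rw [hz]
      field_simp
      ring
    obtain ⟨⟨P, Q, Z⟩, hY⟩ : ∃ Y : ℝ × ℝ × ℂ, Y = B (A s t (normSq z, 1, z)) := ⟨_, rfl⟩
    have hQ : Q = α := by
      have h9 := hφA (normSq z) 1 z
      rw [hφ, ← hY, one_mul] at h9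
      exact h9
    have hYA : A s w (P, Q, Z) = A s t (normSq z, 1, z) := by
      rw [hY, hB]
    have hQ0 : 0 < Q := by rw [hQ]; exact hαpos
    have hfac : P * Q - normSq Z ≤ 0 := by
      refine facet (w := w r) hr P Q Z ?_
      have h9 := congrFun hYA r
      rw [A_one, hz0, normSq_zero, A_apply] at h9
      exact h9
    obtain ⟨t0, ht0⟩ : ∃ t0, t0 = (normSq Z - P * Q) / Q := ⟨_, rfl⟩
    have ht00 : 0 ≤ t0 := by
      rw [ht0]
      exact div_nonneg (by linarith) hQ0.le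
    have ht0' : (P + t0) * Q = normSq Z := by
      rw [ht0]
      field_simp
      ring
    have hshift : A s t (normSq z + t0, 1, z) = A s w (P + t0, Q, Z) := by
      ext k
      have h9 := congrFun hYA k
      rw [A_apply, A_apply] at h9
      rw [A_apply, A_apply]
      linarith
    rcases ht00.eq_or_lt with h00 | h00
    · rw [← h00, add_zero] at ht0'
      exact Zp h1 h2 h3 (normSq z) 1 z P Q Z one_pos (mul_one _) hQ0.le ht0' hYA.symm
    · obtain ⟨C, hC⟩ : ∃ C : (Fin 4 → ℝ) →ₗ[ℝ] (ℝ × ℝ × ℂ), ∀ m, A s t (C m) = m :=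
        ⟨(LinearEquiv.ofBijective (A s t) ⟨A_inj h1 h2, A_surj h1 h2⟩).symm.toLinearMap,
          fun m => (LinearEquiv.ofBijective (A s t)
            ⟨A_inj h1 h2, A_surj h1 h2⟩).apply_symm_apply m⟩
      have hC' : ∀ X, C (A s t X) = X := by
        intro X
        apply A_inj h1 h2
        rw [hC]
      obtain ⟨W, hW⟩ : ∃ W : ℝ → ℂ, ∀ τ, W τ = (1 - (τ : ℂ)) * (Z / Q) + (τ : ℂ) * (-w r / s r) :=
        ⟨fun τ => _, fun τ => rfl⟩
      have hWc : Continuous W := by
        have : W = fun τ : ℝ => (1 - (τ : ℂ)) * (Z / Q) + (τ : ℂ) * (-w r / s r) := funext hW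
        rw [this]
        fun_prop
      obtain ⟨X, hX⟩ : ∃ X : ℝ → ℝ × ℝ × ℂ, ∀ τ, X τ = C (A s w (normSq (W τ), 1, W τ)) :=
        ⟨fun τ => _, fun τ => rfl⟩
      have hXc : Continuous X := by
        have : X = fun τ : ℝ => C (A s w (normSq (W τ), 1, W τ)) := funext hX
        rw [this]
        have e1 : Continuous C := C.continuous_of_finiteDimensional
        have e2 : Continuous (A s w) := (A s w).continuous_of_finiteDimensional
        have e3 : Continuous fun τ : ℝ => ((normSq (W τ), 1, W τ) : ℝ × ℝ × ℂ) :=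
          (Complex.continuous_normSq.comp hWc).prodMk (continuous_const.prodMk hWc)
        exact e1.comp (e2.comp e3)
      have hXA : ∀ τ, A s t (X τ) = A s w (normSq (W τ), 1, W τ) := by
        intro τ
        rw [hX, hC]
      have hXq : ∀ τ, (X τ).2.1 = 1 / α := by
        intro τ
        have h9 := hφA (X τ).1 (X τ).2.1 (X τ).2.2
        have h10 : (((X τ).1, (X τ).2.1, (X τ).2.2) : ℝ × ℝ × ℂ) = X τ := rfl
        rw [h10, hXA τ, hφ, hB'] at h9
        rw [eq_div_iff hα0]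
        exact h9.symm
      obtain ⟨D, hD⟩ : ∃ D : ℝ → ℝ, ∀ τ, D τ = (X τ).1 * (X τ).2.1 - normSq (X τ).2.2 :=
        ⟨fun τ => _, fun τ => rfl⟩
      have hDc : Continuous D := by
        have : D = fun τ => (X τ).1 * (X τ).2.1 - normSq (X τ).2.2 := funext hD
        rw [this]
        exact (hXc.fst.mul hXc.snd.fst).sub (Complex.continuous_normSq.comp hXc.snd.snd)
      have hQc : (Q : ℂ) ≠ 0 := by exact_mod_cast hQ0.ne'
      have hX0 : X 0 = Q⁻¹ • (normSq z + t0, 1, z) := by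
        have h9 : W 0 = Z / Q := by
          rw [hW]
          simp
        have h10 : A s w (P + t0, Q, Z) = Q • A s w (normSq (W 0), 1, W 0) := by
          rw [← map_smul, h9]
          congr 1
          have h11 : P + t0 = Q * normSq (Z / Q) := by
            rw [normSq_div, normSq_ofReal, ← ht0']
            field_simp
          have h12 : Z = (Q : ℝ) • (Z / (Q : ℂ)) := by
            rw [Complex.real_smul]
            field_simp
          ext
          · simpa using h11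
          · simp
          · exact h12
        apply A_inj h1 h2
        rw [hXA 0, map_smul, hshift, h10, smul_smul, inv_mul_cancel₀ hQ0.ne', one_smul]
      have hD0 : 0 < D 0 := by
        rw [hD, hX0]
        have h9 : (Q⁻¹ • ((normSq z + t0, 1, z) : ℝ × ℝ × ℂ)).1 = Q⁻¹ * (normSq z + t0) := rfl
        have h10 : (Q⁻¹ • ((normSq z + t0, 1, z) : ℝ × ℝ × ℂ)).2.1 = Q⁻¹ * 1 := rfl
        have h11 : (Q⁻¹ • ((normSq z + t0, 1, z) : ℝ × ℝ × ℂ)).2.2 = ((Q⁻¹ : ℝ) : ℂ) * z := rfl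
        rw [h9, h10, h11, normSq_mul, normSq_ofReal]
        have h12 : Q⁻¹ * (normSq z + t0) * (Q⁻¹ * 1) - Q⁻¹ * Q⁻¹ * normSq z = Q⁻¹ * Q⁻¹ * t0 := by
          ring
        rw [h12]
        positivity
      have hD1 : D 1 ≤ 0 := by
        rw [hD]
        refine facet (w := t r) hr _ _ _ ?_
        have h9 := congrFun (hXA 1) r
        have h10 : s r * W 1 + w r = 0 := by
          rw [hW]
          push_cast
          field_simp
          ring
        rw [A_one, h10, normSq_zero] at h9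
        exact h9
      obtain ⟨τ, -, hτ⟩ := intermediate_value_Icc' (zero_le_one' ℝ) hDc.continuousOn
        ⟨hD1, hD0.le⟩
      rw [hD] at hτ
      refine Zp h1 h2 h3 (X τ).1 (X τ).2.1 (X τ).2.2 (normSq (W τ)) 1 (W τ) ?_ ?_ zero_le_one
        (mul_one _) ?_
      · rw [hXq]
        positivity
      · linarith
      · exact hXA τ


theorem Wne {s t w : Fin 4 → ℂ} (h1 : PairOK s t) (h2 : Ind s t) (c : Fin 4 → ℝ)
    (ht : (∑ r, c r * normSq (t r)) < 0) (hw : 0 < ∑ r, c r * normSq (w r)) :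
    ∃ r, (c r : ℂ) * s r ≠ 0 := by
  by_contra hall
  push Not at hall
  obtain ⟨r, hr⟩ : ∃ r, c r * normSq (t r) < 0 := by
    by_contra hcon
    push Not at hcon
    exact absurd (Finset.sum_nonneg fun r _ => hcon r) (not_le.mpr ht)
  obtain ⟨r', hr'⟩ : ∃ r, 0 < c r * normSq (w r) := by
    by_contra hcon
    push Not at hcon
    exact absurd (Finset.sum_nonpos fun r _ => hcon r) (not_le.mpr hw)
  have hc : c r < 0 := by
    by_contra hcon
    push Not at hcon
    have := mul_nonneg hcon (normSq_nonneg (t r))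
    linarith
  have hc' : 0 < c r' := by
    by_contra hcon
    push Not at hcon
    have := mul_nonpos_of_nonpos_of_nonneg hcon (normSq_nonneg (w r'))
    linarith
  have hne : r ≠ r' := by
    rintro rfl
    linarith
  have hs : s r = 0 := by
    rcases mul_eq_zero.mp (hall r) with h | h
    · exact absurd (by exact_mod_cast h) hc.ne
    · exact h
  have hs' : s r' = 0 := by
    rcases mul_eq_zero.mp (hall r') with h | h
    · exact absurd (by exact_mod_cast h) hc'.ne'
    · exact h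
  obtain ⟨⟨p, q, z⟩, hX⟩ := A_surj h1 h2 (Pi.single r 1)
  obtain ⟨⟨p', q', z'⟩, hX'⟩ := A_surj h1 h2 (Pi.single r' 1)
  have e1 := congrFun hX r
  have e2 := congrFun hX r'
  have e3 := congrFun hX' r'
  rw [A_apply, hs, Pi.single_eq_same] at e1
  rw [A_apply, hs', Pi.single_eq_of_ne hne.symm] at e2
  rw [A_apply, hs', Pi.single_eq_same] at e3
  simp only [normSq_zero, mul_zero, zero_mul, zero_add, add_zero, Complex.zero_re] at e1 e2 e3
  rcases mul_eq_zero.mp e2 with h | h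
  · rw [h, zero_mul] at e1
    exact zero_ne_one e1
  · rw [h, mul_zero] at e3
    exact zero_ne_one e3

theorem exists_ker (v : Fin 3 → Fin 4 → ℂ) (w : Fin 4 → ℂ) (hw : w ≠ 0) (k : Fin 4)
    (hk : w k = 0) (ho : ∀ i, ∑ r, w r * (starRingEnd ℂ) (v i r) = 0) :
    ∃ x : Fin 3 → ℂ, x ≠ 0 ∧ ∀ r, r ≠ k → ∑ i, v i r * x i = 0 := by
  obtain ⟨M, hM⟩ : ∃ M : Matrix (Fin 3) (Fin 3) ℂ, M = Matrix.of fun a i => v i (k.succAbove a) :=
    ⟨_, rfl⟩
  have h1 : ∃ y ≠ 0, Matrix.vecMul y M = 0 := by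
    refine ⟨fun a => (starRingEnd ℂ) (w (k.succAbove a)), ?_, ?_⟩
    · intro h0
      apply hw
      ext r
      by_cases hrk : r = k
      · rw [hrk, hk]
        rfl
      · obtain ⟨a, rfl⟩ := Fin.exists_succAbove_eq hrk
        have h3 := congrFun h0 a
        simpa using h3
    · ext i
      have h4 := ho i
      rw [Fin.sum_univ_succAbove _ k, hk, zero_mul, zero_add] at h4
      have h5 := congrArg (starRingEnd ℂ) h4
      rw [map_sum, map_zero] at h5
      rw [hM]
      simp only [Matrix.vecMul, dotProduct, Matrix.of_apply, Pi.zero_apply]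
      rw [← h5]
      refine Finset.sum_congr rfl fun a _ => ?_
      rw [map_mul, Complex.conj_conj]
  rw [Matrix.exists_vecMul_eq_zero_iff, ← Matrix.exists_mulVec_eq_zero_iff] at h1
  obtain ⟨x, hx, hx2⟩ := h1
  refine ⟨x, hx, ?_⟩
  intro r hr
  obtain ⟨a, rfl⟩ := Fin.exists_succAbove_eq hr
  have h3 := congrFun hx2 a
  rw [hM] at h3
  simpa [Matrix.mulVec, dotProduct] using h3

theorem no4 (v : Fin 3 → Fin 4 → ℂ) (hpair : ∀ i j, i ≠ j → PairOK (v i) (v j))
    (hdiff : ∀ i j l, i ≠ j → i ≠ l → j ≠ l → DiffOK (v i) (v j) (v l))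
    (hspan : ∀ x : Fin 3 → ℂ, (∀ r, ∑ i, v i r * x i = 0) → x = 0) : False := by
  have hind : ∀ i j, i ≠ j → Ind (v i) (v j) := by
    intro i j hij a b hab
    have h1 := hspan (Pi.single i a + Pi.single j b) (by
      intro r
      rw [← hab r]
      simp only [Pi.add_apply, mul_add, Finset.sum_add_distrib]
      rw [Finset.sum_eq_single i, Finset.sum_eq_single j, Pi.single_eq_same, Pi.single_eq_same]
      · intro k _ hk
        rw [Pi.single_eq_of_ne hk, mul_zero]
      · intro h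
        exact absurd (Finset.mem_univ _) h
      · intro k _ hk
        rw [Pi.single_eq_of_ne hk, mul_zero]
      · intro h
        exact absurd (Finset.mem_univ _) h)
    have h2 := congrFun h1 i
    have h3 := congrFun h1 j
    rw [Pi.add_apply, Pi.single_eq_same, Pi.single_eq_of_ne hij, add_zero] at h2
    rw [Pi.add_apply, Pi.single_eq_same, Pi.single_eq_of_ne hij.symm, zero_add] at h3
    exact ⟨h2, h3⟩
  have h01 : (0 : Fin 3) ≠ 1 := by decide
  have h02 : (0 : Fin 3) ≠ 2 := by decide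
  have h12 : (1 : Fin 3) ≠ 2 := by decide
  obtain ⟨c, c1, c2, c3, c4, c5⟩ := tang (hpair 0 1 h01) (hind 0 1 h01) (hpair 0 2 h02)
    (hind 0 2 h02) (hdiff 0 1 2 h01 h02 h12)
  obtain ⟨d, d1, d2, d3, d4, d5⟩ := tang (hpair 1 0 h01.symm) (hind 1 0 h01.symm) (hpair 1 2 h12)
    (hind 1 2 h12) (hdiff 1 0 2 h01.symm h12 h02)
  obtain ⟨k, hk⟩ := Wne (hpair 0 1 h01) (hind 0 1 h01) c c4 c5
  obtain ⟨m, hm⟩ := Wne (hpair 1 0 h01.symm) (hind 1 0 h01.symm) d d4 d5
  have ho1 : ∀ i, ∑ r, ((c r : ℂ) * v 0 r) * (starRingEnd ℂ) (v i r) = 0 := by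
    intro i
    fin_cases i
    · exact (Finset.sum_congr rfl fun r _ => mul_assoc _ _ _).trans c1
    · exact (Finset.sum_congr rfl fun r _ => mul_assoc _ _ _).trans c2
    · exact (Finset.sum_congr rfl fun r _ => mul_assoc _ _ _).trans c3
  have ho2 : ∀ i, ∑ r, ((d r : ℂ) * v 1 r) * (starRingEnd ℂ) (v i r) = 0 := by
    intro i
    fin_cases i
    · exact (Finset.sum_congr rfl fun r _ => mul_assoc _ _ _).trans d2
    · exact (Finset.sum_congr rfl fun r _ => mul_assoc _ _ _).trans d1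
    · exact (Finset.sum_congr rfl fun r _ => mul_assoc _ _ _).trans d3
  -- the two relations are proportional
  obtain ⟨w, hw⟩ : ∃ w : Fin 4 → ℂ, ∀ r, w r = ((c k : ℂ) * v 0 k) * ((d r : ℂ) * v 1 r) -
      ((d k : ℂ) * v 1 k) * ((c r : ℂ) * v 0 r) := ⟨fun r => _, fun r => rfl⟩
  have hw0 : w = 0 := by
    by_contra hne
    obtain ⟨x, hx, hx2⟩ := exists_ker v w hne k (by rw [hw]; ring) (by
      intro i
      have e1 : ∀ r, w r * (starRingEnd ℂ) (v i r) =
          ((c k : ℂ) * v 0 k) * (((d r : ℂ) * v 1 r) * (starRingEnd ℂ) (v i r)) -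
          ((d k : ℂ) * v 1 k) * (((c r : ℂ) * v 0 r) * (starRingEnd ℂ) (v i r)) := by
        intro r
        rw [hw]
        ring
      rw [Finset.sum_congr rfl (fun r _ => e1 r), Finset.sum_sub_distrib, ← Finset.mul_sum,
        ← Finset.mul_sum, ho1, ho2, mul_zero, mul_zero, sub_zero])
    apply hx
    apply hspan
    intro r
    by_cases hrk : r = k
    · subst hrk
      have e2 : ∑ r', (starRingEnd ℂ) ((c r' : ℂ) * v 0 r') * ∑ i, v i r' * x i = 0 := by
        have e3 : ∀ r', (starRingEnd ℂ) ((c r' : ℂ) * v 0 r') * ∑ i, v i r' * x i =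
            ∑ i, (starRingEnd ℂ) (((c r' : ℂ) * v 0 r') * (starRingEnd ℂ) (v i r')) * x i := by
          intro r'
          rw [Finset.mul_sum]
          refine Finset.sum_congr rfl fun i _ => ?_
          rw [map_mul (starRingEnd ℂ) _ ((starRingEnd ℂ) (v i r')), Complex.conj_conj]
          ring
        rw [Finset.sum_congr rfl (fun r' _ => e3 r'), Finset.sum_comm]
        refine Finset.sum_eq_zero fun i _ => ?_
        rw [← Finset.sum_mul, ← map_sum, ho1, map_zero, zero_mul]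
      rw [Finset.sum_eq_single r] at e2
      · rcases mul_eq_zero.mp e2 with h | h
        · rw [map_eq_zero] at h
          exact absurd h hk
        · exact h
      · intro r' _ hr'
        rw [hx2 r' hr', mul_zero]
      · intro h
        exact absurd (Finset.mem_univ _) h
    · exact hx2 r hrk
  obtain ⟨lam, hlam⟩ : ∃ lam : ℂ, lam = ((d k : ℂ) * v 1 k) / ((c k : ℂ) * v 0 k) := ⟨_, rfl⟩
  have hpar : ∀ r, (d r : ℂ) * v 1 r = lam * ((c r : ℂ) * v 0 r) := by
    intro r
    have e1 := congrFun hw0 r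
    rw [hw, Pi.zero_apply, sub_eq_zero] at e1
    rw [hlam, div_mul_eq_mul_div, eq_div_iff hk, ← e1]
    ring
  have hlam0 : lam ≠ 0 := by
    intro h
    apply hm
    rw [hpar m, h, zero_mul]
  obtain ⟨r0, hr0⟩ : ∃ r0, (lam * (v 0 r0 * (starRingEnd ℂ) (v 1 r0))).im ≠ 0 := by
    by_contra hcon
    push Not at hcon
    have e1 : A (v 0) (v 1) (0, 0, I * lam) = A (v 0) (v 1) 0 := by
      rw [map_zero]
      ext r
      rw [A_apply, mul_assoc, Complex.I_mul_re, hcon r]
      simp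
    have e2 := A_inj (hpair 0 1 h01) (hind 0 1 h01) e1
    have e3 : I * lam = 0 := (Prod.ext_iff.mp (Prod.ext_iff.mp e2).2).2
    rcases mul_eq_zero.mp e3 with h | h
    · exact Complex.I_ne_zero h
    · exact hlam0 h
  have hc0 : c r0 = 0 := by
    have e1 : (c r0 : ℂ) * (lam * (v 0 r0 * (starRingEnd ℂ) (v 1 r0))) =
        ((d r0 * normSq (v 1 r0) : ℝ) : ℂ) := by
      push_cast
      rw [← Complex.mul_conj]
      have e2 := hpar r0
      linear_combination (-(starRingEnd ℂ) (v 1 r0)) * e2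
    have e3 := congrArg Complex.im e1
    rw [Complex.im_ofReal_mul, Complex.ofReal_im] at e3
    rcases mul_eq_zero.mp e3 with h | h
    · exact h
    · exact absurd h hr0
  have hW : (fun r => (c r : ℂ) * v 0 r) ≠ 0 := fun h => hk (congrFun h k)
  obtain ⟨n, hn, hn2⟩ := exists_ker v (fun r => (c r : ℂ) * v 0 r) hW r0 (by
    simp [hc0]) ho1
  have hall : ∀ r, (c r : ℂ) * ∑ i, v i r * n i = 0 := by
    intro r
    by_cases h : r = r0
    · rw [h, hc0]
      simp
    · rw [hn2 r h, mul_zero]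
  have hj : ∀ j, ∑ i, (∑ r, (c r : ℂ) * (v i r * (starRingEnd ℂ) (v j r))) * n i = 0 := by
    intro j
    have e1 : ∑ r, ((c r : ℂ) * ∑ i, v i r * n i) * (starRingEnd ℂ) (v j r) = 0 :=
      Finset.sum_eq_zero fun r _ => by rw [hall r, zero_mul]
    rw [← e1]
    simp only [Finset.mul_sum, Finset.sum_mul]
    rw [Finset.sum_comm]
    refine Finset.sum_congr rfl fun r _ => Finset.sum_congr rfl fun i _ => ?_
    ring
  obtain ⟨h, hh⟩ : ∃ h : ℂ, h = ∑ r, (c r : ℂ) * (v 1 r * (starRingEnd ℂ) (v 2 r)) := ⟨_, rfl⟩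
  have hh' : ∑ r, (c r : ℂ) * (v 2 r * (starRingEnd ℂ) (v 1 r)) = (starRingEnd ℂ) h := by
    rw [hh, map_sum]
    refine Finset.sum_congr rfl fun r _ => ?_
    rw [map_mul, map_mul, Complex.conj_conj, Complex.conj_ofReal]
    ring
  have hdiag : ∀ i, ∑ r, (c r : ℂ) * (v i r * (starRingEnd ℂ) (v i r)) =
      ((∑ r, c r * normSq (v i r) : ℝ) : ℂ) := by
    intro i
    push_cast
    refine Finset.sum_congr rfl fun r _ => ?_
    rw [Complex.mul_conj]
  have e1 := hj 1
  have e2 := hj 2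
  rw [Fin.sum_univ_three] at e1 e2
  rw [c2, hdiag 1, hh'] at e1
  rw [c3, ← hh, hdiag 2] at e2
  obtain ⟨a, ha⟩ : ∃ a, a = ∑ r, c r * normSq (v 1 r) := ⟨_, rfl⟩
  obtain ⟨b, hb⟩ : ∃ b, b = ∑ r, c r * normSq (v 2 r) := ⟨_, rfl⟩
  rw [← ha] at e1 c4
  rw [← hb] at e2 c5
  have e3 : (a : ℂ) * (n 1 * (starRingEnd ℂ) (n 1)) = (b : ℂ) * (n 2 * (starRingEnd ℂ) (n 2)) := by
    have e4 := congrArg (starRingEnd ℂ) e2
    simp only [map_add, map_mul, map_zero, Complex.conj_ofReal] at e4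
    linear_combination (starRingEnd ℂ) (n 1) * e1 - n 2 * e4
  rw [Complex.mul_conj, Complex.mul_conj] at e3
  have e5 : a * normSq (n 1) = b * normSq (n 2) := by exact_mod_cast e3
  have hn1 : n 1 = 0 := by
    rw [← normSq_eq_zero]
    have := normSq_nonneg (n 1)
    have := mul_nonneg c5.le (normSq_nonneg (n 2))
    by_contra hcon
    have h6 : 0 < normSq (n 1) := lt_of_le_of_ne (normSq_nonneg _) (Ne.symm hcon)
    have := mul_neg_of_neg_of_pos c4 h6
    linarith
  have hn2' : n 2 = 0 := by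
    rw [hn1, normSq_zero, mul_zero] at e5
    rcases mul_eq_zero.mp e5.symm with h6 | h6
    · exact absurd h6 c5.ne'
    · exact normSq_eq_zero.mp h6
  have hn0 : n 0 ≠ 0 := by
    intro h6
    apply hn
    ext i
    fin_cases i
    · exact h6
    · exact hn1
    · exact hn2'
  apply hW
  ext r
  by_cases h6 : r = r0
  · rw [h6]
    simp [hc0]
  · have h7 := hn2 r h6
    rw [Fin.sum_univ_three, hn1, hn2', mul_zero, mul_zero, add_zero, add_zero] at h7
    rcases mul_eq_zero.mp h7 with h8 | h8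
    · simp [h8]
    · exact absurd h8 hn0


/-- `x` has at most `k` nonzero coordinates. -/
def Sparse {n : ℕ} (k : ℕ) (x : EuclideanSpace ℂ (Fin n)) : Prop :=
  (Finset.univ.filter fun i => x i ≠ 0).card ≤ k

/-- `f` allows `k`-sparse phase retrieval. -/
def Allows {n N : ℕ} (k : ℕ) (f : Fin N → EuclideanSpace ℂ (Fin n)) : Prop :=
  ∀ x y : EuclideanSpace ℂ (Fin n), Sparse k x → Sparse k y →
    (∀ j, ‖inner ℂ (f j) x‖ = ‖inner ℂ (f j) y‖) → ∃ c : ℂ, ‖c‖ = 1 ∧ x = c • y

/-- `f` is a frame (a spanning family). -/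
def IsFrame {n N : ℕ} (f : Fin N → EuclideanSpace ℂ (Fin n)) : Prop :=
  Submodule.span ℂ (Set.range f) = ⊤

/-- The minimal number of vectors in a frame of `ℂ^n` that allows `k`-sparse phase retrieval. -/
noncomputable def Nmin (n k : ℕ) : ℕ :=
  sInf {N : ℕ | ∃ f : Fin N → EuclideanSpace ℂ (Fin n), IsFrame f ∧ Allows k f}

theorem inner_eq {n : ℕ} (f x : EuclideanSpace ℂ (Fin n)) :
    inner ℂ f x = ∑ i, (starRingEnd ℂ) (f i) * x i := by
  rw [PiLp.inner_apply]
  refine Finset.sum_congr rfl fun i _ => ?_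
  rw [RCLike.inner_apply]
  ring

theorem sparse_two {n : ℕ} (i j : Fin n) (a b : ℂ) :
    Sparse 2 (EuclideanSpace.single i a + EuclideanSpace.single j b) := by
  refine (Finset.card_le_card (?_ : _ ⊆ ({i, j} : Finset (Fin n)))).trans Finset.card_le_two
  intro k hk
  rw [Finset.mem_filter] at hk
  by_contra hcon
  rw [Finset.mem_insert, Finset.mem_singleton, not_or] at hcon
  apply hk.2
  simp [hcon.1, hcon.2]

theorem inner_two {n : ℕ} (f : EuclideanSpace ℂ (Fin n)) (i j : Fin n) (a b : ℂ) :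
    inner ℂ f (EuclideanSpace.single i a + EuclideanSpace.single j b) =
      (starRingEnd ℂ) (f i) * a + (starRingEnd ℂ) (f j) * b := by
  rw [inner_add_right, EuclideanSpace.inner_single_right, EuclideanSpace.inner_single_right]
  ring

theorem lower {n N : ℕ} (hn : 3 ≤ n) (hN : N ≤ 4) (f : Fin N → EuclideanSpace ℂ (Fin n))
    (hf : IsFrame f) (ha : Allows 2 f) : False := by
  obtain ⟨e, he⟩ : ∃ e : Fin 3 → Fin n, ∀ i j, e i = e j → i = j :=
    ⟨Fin.castLE hn, fun i j h => Fin.castLE_injective hn h⟩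
  obtain ⟨v, hv⟩ : ∃ v : Fin 3 → Fin 4 → ℂ, ∀ i r, v i r =
      if h : r.1 < N then (starRingEnd ℂ) (f ⟨r.1, h⟩ (e i)) else 0 := ⟨fun i r => _, fun i r => rfl⟩
  have hconv : ∀ (i j l m : Fin 3) (a b c d : ℂ),
      (∀ r, normSq (v i r * a + v j r * b) = normSq (v l r * c + v m r * d)) →
      ∃ u : ℂ, (EuclideanSpace.single (e i) a + EuclideanSpace.single (e j) b :
        EuclideanSpace ℂ (Fin n)) = u • (EuclideanSpace.single (e l) c + EuclideanSpace.single (e m) d) := by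
    intro i j l m a b c d hr
    obtain ⟨u, -, hu⟩ := ha _ _ (sparse_two (e i) (e j) a b) (sparse_two (e l) (e m) c d) (by
      intro k
      have h1 := hr ⟨k.1, lt_of_lt_of_le k.2 hN⟩
      rw [hv, hv, hv, hv, dif_pos k.2, dif_pos k.2, dif_pos k.2, dif_pos k.2] at h1
      rw [inner_two, inner_two, ← Real.sqrt_sq (norm_nonneg _), ← Complex.normSq_eq_norm_sq, h1,
        Complex.normSq_eq_norm_sq, Real.sqrt_sq (norm_nonneg _)])
    exact ⟨u, hu⟩
  refine no4 v ?_ ?_ ?_
  · intro i j hij a b c d hr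
    obtain ⟨u, hu⟩ := hconv i j i j a b c d hr
    have hij' : e i ≠ e j := fun h => hij (he i j h)
    refine ⟨u, ?_, ?_⟩
    · have h1 := congrArg (fun x : EuclideanSpace ℂ (Fin n) => x (e i)) hu
      simpa [hij', hij'.symm] using h1
    · have h1 := congrArg (fun x : EuclideanSpace ℂ (Fin n) => x (e j)) hu
      simpa [hij', hij'.symm] using h1
  · intro i j l hij hil hjl a b c d hr
    obtain ⟨u, hu⟩ := hconv i j i l a b c d hr
    have hij' : e i ≠ e j := fun h => hij (he i j h)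
    have hjl' : e j ≠ e l := fun h => hjl (he j l h)
    have h1 := congrArg (fun x : EuclideanSpace ℂ (Fin n) => x (e j)) hu
    simpa [hij', hij'.symm, hjl', hjl'.symm] using h1
  · intro x hx
    obtain ⟨y, hy⟩ : ∃ y : EuclideanSpace ℂ (Fin n), y = ∑ i, EuclideanSpace.single (e i) (x i) :=
      ⟨_, rfl⟩
    have hy0 : ∀ k, inner ℂ (f k) y = 0 := by
      intro k
      have h1 := hx ⟨k.1, lt_of_lt_of_le k.2 hN⟩
      rw [hy, inner_sum, ← h1]
      refine Finset.sum_congr rfl fun i _ => ?_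
      rw [EuclideanSpace.inner_single_right, hv, dif_pos k.2]
      ring
    have hy1 : y = 0 := by
      have h2 : ∀ z : EuclideanSpace ℂ (Fin n), inner ℂ z y = 0 := by
        intro z
        have hz : z ∈ Submodule.span ℂ (Set.range f) := by
          rw [hf]
          trivial
        induction hz using Submodule.span_induction with
        | mem z hz =>
          obtain ⟨k, rfl⟩ := hz
          exact hy0 k
        | zero => exact inner_zero_left _
        | add a b _ _ ha hb => rw [inner_add_left, ha, hb, add_zero]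
        | smul c a _ ha => rw [inner_smul_left, ha, mul_zero]
      exact inner_self_eq_zero.mp (h2 y)
    ext i
    have h3 := congrArg (fun x : EuclideanSpace ℂ (Fin n) => x (e i)) hy1
    rw [hy] at h3
    have h4 : (∑ i, EuclideanSpace.single (e i) (x i) : EuclideanSpace ℂ (Fin n)) (e i) = x i := by
      rw [WithLp.ofLp_sum, Finset.sum_apply, Finset.sum_eq_single i]
      · simp
      · intro j _ hji
        have : e i ≠ e j := fun h => hji (he i j h).symm
        simp [this]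
      · intro h
        exact absurd (Finset.mem_univ _) h
    rw [← h4]
    simpa using h3


/-- the standard basis together with the vectors `(1)_i` and `(1 + i √-1)_i` -/
noncomputable def fam (n : ℕ) : Fin (n + 2) → EuclideanSpace ℂ (Fin n) :=
  Fin.addCases (fun i => EuclideanSpace.single i 1)
    (fun b => WithLp.toLp 2 fun i => if b = 0 then 1 else 1 + (i.1 : ℂ) * I)

theorem frame_of_single {n N : ℕ} (f : Fin N → EuclideanSpace ℂ (Fin n))
    (h : ∀ i : Fin n, ∃ j, f j = EuclideanSpace.single i 1) : IsFrame f := by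
  unfold IsFrame
  rw [eq_top_iff, ← (EuclideanSpace.basisFun (Fin n) ℂ).toBasis.span_eq]
  refine Submodule.span_mono ?_
  rintro x ⟨i, rfl⟩
  obtain ⟨j, hj⟩ := h i
  refine ⟨j, ?_⟩
  rw [hj]
  simp

theorem fam_frame (n : ℕ) : IsFrame (fam n) := by
  refine frame_of_single _ fun i => ⟨Fin.castAdd 2 i, ?_⟩
  unfold fam
  rw [Fin.addCases_left]

theorem key {p q p' q' : ℂ} (a : ℝ) (ha : a ≠ 0) (b : ℝ) (hp : p ≠ 0) (h1 : normSq p = normSq p')
    (h2 : normSq q = normSq q') (h3 : normSq (p + q) = normSq (p' + q'))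
    (h4 : normSq (p + (b + a * I) * q) = normSq (p' + (b + a * I) * q')) :
    q = (p / p') * q' := by
  have hp' : p' ≠ 0 := by
    intro h
    rw [h, normSq_zero] at h1
    exact hp (normSq_eq_zero.mp h1)
  have e1 : p * (starRingEnd ℂ) q = p' * (starRingEnd ℂ) q' := by
    have e2 : (p * (starRingEnd ℂ) q).re = (p' * (starRingEnd ℂ) q').re := by
      rw [normSq_add, normSq_add] at h3
      linarith
    have e3 : a * (p * (starRingEnd ℂ) q).im = a * (p' * (starRingEnd ℂ) q').im := by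
      rw [normSq_add, normSq_add, normSq_mul, normSq_mul] at h4
      have e4 : ∀ u v : ℂ, (u * (starRingEnd ℂ) ((b + a * I) * v)).re =
          b * (u * (starRingEnd ℂ) v).re + a * (u * (starRingEnd ℂ) v).im := by
        intro u v
        simp only [map_mul, map_add, Complex.conj_ofReal, Complex.conj_I, Complex.mul_re,
          Complex.mul_im, Complex.add_re, Complex.add_im, Complex.conj_re, Complex.conj_im,
          Complex.ofReal_re, Complex.ofReal_im, Complex.neg_re, Complex.neg_im, Complex.I_re,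
          Complex.I_im]
        ring
      rw [e4, e4, e2, h1, h2] at h4
      linarith
    exact Complex.ext e2 (mul_left_cancel₀ ha e3)
  have e5 : p * (starRingEnd ℂ) p = p' * (starRingEnd ℂ) p' := by
    rw [Complex.mul_conj, Complex.mul_conj, h1]
  have e6 := congrArg (starRingEnd ℂ) e1
  rw [map_mul, map_mul, Complex.conj_conj, Complex.conj_conj] at e6
  have hcp : (starRingEnd ℂ) p ≠ 0 := fun h => hp (by simpa using h)
  rw [div_mul_eq_mul_div, eq_div_iff hp']
  apply mul_left_cancel₀ hcp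
  linear_combination p' * e6 - q' * e5

theorem fam_allows (n : ℕ) : Allows 2 (fam n) := by
  intro x y hx hy h
  have hn : ∀ j, normSq (inner ℂ (fam n j) x) = normSq (inner ℂ (fam n j) y) := by
    intro j
    rw [Complex.normSq_eq_norm_sq, Complex.normSq_eq_norm_sq, h j]
  have h1 : ∀ i, normSq (x i) = normSq (y i) := by
    intro i
    have h2 := hn (Fin.castAdd 2 i)
    unfold fam at h2
    rw [Fin.addCases_left, EuclideanSpace.inner_single_left, EuclideanSpace.inner_single_left] at h2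
    simpa using h2
  have h2 : normSq (∑ i, x i) = normSq (∑ i, y i) := by
    have h3 := hn (Fin.natAdd n 0)
    unfold fam at h3
    rw [Fin.addCases_right, inner_eq, inner_eq] at h3
    simpa using h3
  have h3 : normSq (∑ i : Fin n, (1 - (i.1 : ℂ) * I) * x i) =
      normSq (∑ i : Fin n, (1 - (i.1 : ℂ) * I) * y i) := by
    have h3 := hn (Fin.natAdd n 1)
    unfold fam at h3
    rw [Fin.addCases_right, inner_eq, inner_eq] at h3
    have e : ∀ z : EuclideanSpace ℂ (Fin n), ∑ i : Fin n, (starRingEnd ℂ) ((WithLp.toLp 2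
        fun i : Fin n => if (1 : Fin 2) = 0 then 1 else 1 + (i.1 : ℂ) * I) i) * z i =
        ∑ i : Fin n, (1 - (i.1 : ℂ) * I) * z i := by
      intro z
      refine Finset.sum_congr rfl fun i _ => ?_
      congr 1
      change (starRingEnd ℂ) (if (1 : Fin 2) = 0 then 1 else 1 + (i.1 : ℂ) * I) = _
      rw [if_neg (by decide), map_add, map_one, map_mul, Complex.conj_I, Complex.conj_natCast]
      ring
    rw [e, e] at h3
    exact h3
  by_cases hx0 : ∀ i, x i = 0
  · refine ⟨1, by simp, ?_⟩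
    ext i
    have h4 := h1 i
    rw [hx0 i, normSq_zero] at h4
    have h5 : y i = 0 := normSq_eq_zero.mp h4.symm
    rw [hx0 i, one_smul, h5]
  · push Not at hx0
    obtain ⟨i, hi⟩ := hx0
    have hyi : y i ≠ 0 := by
      intro h4
      have h5 := h1 i
      rw [h4, normSq_zero] at h5
      exact hi (normSq_eq_zero.mp h5)
    refine ⟨x i / y i, ?_, ?_⟩
    · rw [norm_div, div_eq_one_iff_eq (norm_ne_zero_iff.mpr hyi)]
      have h5 := h1 i
      rw [Complex.normSq_eq_norm_sq, Complex.normSq_eq_norm_sq] at h5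
      exact (sq_eq_sq₀ (norm_nonneg _) (norm_nonneg _)).mp h5
    · ext j
      change x j = (x i / y i) * y j
      by_cases hji : j = i
      · rw [hji]
        field_simp
      by_cases hj : x j = 0
      · have h4 := h1 j
        rw [hj, normSq_zero] at h4
        have h5 : y j = 0 := normSq_eq_zero.mp h4.symm
        rw [hj, h5, mul_zero]
      · have hS : ({i, j} : Finset (Fin n)) = Finset.univ.filter fun i => x i ≠ 0 := by
          refine Finset.eq_of_subset_of_card_le ?_ ?_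
          · intro k hk
            rw [Finset.mem_insert, Finset.mem_singleton] at hk
            rw [Finset.mem_filter]
            refine ⟨Finset.mem_univ _, ?_⟩
            rcases hk with h | h
            · rw [h]; exact hi
            · rw [h]; exact hj
          · rw [Finset.card_pair (Ne.symm hji)]
            exact hx
        have hx' : ∀ k, k ≠ i ∧ k ≠ j → x k = 0 := by
          intro k hk
          by_contra hcon
          have h6 : k ∈ Finset.univ.filter fun i => x i ≠ 0 :=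
            Finset.mem_filter.mpr ⟨Finset.mem_univ _, hcon⟩
          rw [← hS, Finset.mem_insert, Finset.mem_singleton] at h6
          rcases h6 with h | h
          · exact hk.1 h
          · exact hk.2 h
        have hy' : ∀ k, k ≠ i ∧ k ≠ j → y k = 0 := by
          intro k hk
          have h5 := h1 k
          rw [hx' k hk, normSq_zero] at h5
          exact normSq_eq_zero.mp h5.symm
        have hsum : ∀ (g : Fin n → ℂ) (z : EuclideanSpace ℂ (Fin n)),
            (∀ k, k ≠ i ∧ k ≠ j → z k = 0) → ∑ k, g k * z k = g i * z i + g j * z j := by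
          intro g z hz
          refine Finset.sum_eq_add i j (Ne.symm hji) (fun k _ hk => ?_)
            (fun h => absurd (Finset.mem_univ _) h) (fun h => absurd (Finset.mem_univ _) h)
          rw [hz k hk, mul_zero]
        have e1 := hsum (fun _ => 1) x hx'
        have e2 := hsum (fun _ => 1) y hy'
        simp only [one_mul] at e1 e2
        rw [e1, e2] at h2
        rw [hsum _ x hx', hsum _ y hy'] at h3
        have hgi : (1 - (i.1 : ℂ) * I) ≠ 0 := by
          intro h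
          have := congrArg Complex.re h
          simp at this
        obtain ⟨ρ, hρ⟩ : ∃ ρ : ℂ, ρ = (1 - (j.1 : ℂ) * I) / (1 - (i.1 : ℂ) * I) := ⟨_, rfl⟩
        have hρ' : (1 - (j.1 : ℂ) * I) = ρ * (1 - (i.1 : ℂ) * I) := by
          rw [hρ, div_mul_cancel₀ _ hgi]
        have hρim : ρ.im ≠ 0 := by
          intro h
          have h7 : ρ = (ρ.re : ℂ) := by
            apply Complex.ext
            · simp
            · simpa using h
          rw [h7] at hρ'
          have h8 := congrArg Complex.re hρ'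
          have h9 := congrArg Complex.im hρ'
          simp at h8 h9
          rw [← h8, one_mul] at h9
          apply hji
          have h10 : (j.1 : ℝ) = (i.1 : ℝ) := by linarith
          exact Fin.ext (by exact_mod_cast h10)
        refine key ρ.im hρim ρ.re hi (h1 i) (h1 j) h2 ?_
        have h7 : ((ρ.re : ℂ) + ρ.im * I) = ρ := Complex.re_add_im ρ
        rw [h7]
        have h8 : ∀ u v : ℂ, (1 - (i.1 : ℂ) * I) * u + (1 - (j.1 : ℂ) * I) * v =
            (1 - (i.1 : ℂ) * I) * (u + ρ * v) := by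
          intro u v
          rw [hρ']
          ring
        rw [h8, h8, normSq_mul, normSq_mul] at h3
        exact mul_left_cancel₀ (fun h => hgi (normSq_eq_zero.mp h)) h3

theorem Nmin_le (n : ℕ) : Nmin n 2 ≤ n + 2 := Nat.sInf_le ⟨fam n, fam_frame n, fam_allows n⟩

theorem card_of_frame {n N : ℕ} (f : Fin N → EuclideanSpace ℂ (Fin n)) (hf : IsFrame f) :
    n ≤ N := by
  have h1 := finrank_range_le_card (R := ℂ) f
  unfold IsFrame at hf
  rw [Set.finrank, hf, finrank_top, finrank_euclideanSpace, Fintype.card_fin,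
    Fintype.card_fin] at h1
  exact h1

theorem le_Nmin {n : ℕ} (hn : 3 ≤ n) : max 5 n ≤ Nmin n 2 := by
  have h1 : Nmin n 2 ∈ {N : ℕ | ∃ f : Fin N → EuclideanSpace ℂ (Fin n), IsFrame f ∧ Allows 2 f} :=
    Nat.sInf_mem ⟨n + 2, fam n, fam_frame n, fam_allows n⟩
  obtain ⟨f, hf, ha⟩ := h1
  refine max_le ?_ (card_of_frame f hf)
  by_contra hcon
  exact lower hn (by omega) f hf ha


theorem lower2 {n N : ℕ} (hn : 2 ≤ n) (hN : N ≤ 3) (f : Fin N → EuclideanSpace ℂ (Fin n))
    (hf : IsFrame f) (ha : Allows 2 f) : False := by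
  obtain ⟨a0, a1, h01⟩ : ∃ a0 a1 : Fin n, a0 ≠ a1 :=
    ⟨⟨0, by omega⟩, ⟨1, by omega⟩, by simp [Fin.ext_iff]⟩
  obtain ⟨v, hv⟩ : ∃ v : Fin n → Fin 4 → ℂ, ∀ i r, v i r =
      if h : r.1 < N then (starRingEnd ℂ) (f ⟨r.1, h⟩ i) else 0 := ⟨fun i r => _, fun i r => rfl⟩
  have hp : PairOK (v a0) (v a1) := by
    intro a b c d hr
    obtain ⟨u, -, hu⟩ := ha _ _ (sparse_two a0 a1 a b) (sparse_two a0 a1 c d) (by
      intro k
      have h1 := hr ⟨k.1, lt_of_lt_of_le k.2 (by omega)⟩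
      rw [hv, hv, dif_pos k.2, dif_pos k.2] at h1
      rw [inner_two, inner_two, ← Real.sqrt_sq (norm_nonneg _), ← Complex.normSq_eq_norm_sq, h1,
        Complex.normSq_eq_norm_sq, Real.sqrt_sq (norm_nonneg _)])
    refine ⟨u, ?_, ?_⟩
    · have h1 := congrArg (fun x : EuclideanSpace ℂ (Fin n) => x a0) hu
      simpa [h01, h01.symm] using h1
    · have h1 := congrArg (fun x : EuclideanSpace ℂ (Fin n) => x a1) hu
      simpa [h01, h01.symm] using h1
  have hi : Ind (v a0) (v a1) := by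
    intro a b hab
    obtain ⟨y, hy⟩ : ∃ y : EuclideanSpace ℂ (Fin n),
      y = EuclideanSpace.single a0 a + EuclideanSpace.single a1 b := ⟨_, rfl⟩
    have hy0 : ∀ k, inner ℂ (f k) y = 0 := by
      intro k
      have h1 := hab ⟨k.1, lt_of_lt_of_le k.2 (by omega)⟩
      rw [hv, hv, dif_pos k.2, dif_pos k.2] at h1
      rw [hy, inner_two, h1]
    have h2 : ∀ z : EuclideanSpace ℂ (Fin n), inner ℂ z y = 0 := by
      intro z
      have hz : z ∈ Submodule.span ℂ (Set.range f) := by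
        rw [hf]
        trivial
      induction hz using Submodule.span_induction with
      | mem z hz =>
        obtain ⟨k, rfl⟩ := hz
        exact hy0 k
      | zero => exact inner_zero_left _
      | add a b _ _ ha hb => rw [inner_add_left, ha, hb, add_zero]
      | smul c a _ ha => rw [inner_smul_left, ha, mul_zero]
    have hy1 : y = 0 := inner_self_eq_zero.mp (h2 y)
    rw [hy] at hy1
    have h3 := congrArg (fun x : EuclideanSpace ℂ (Fin n) => x a0) hy1
    have h4 := congrArg (fun x : EuclideanSpace ℂ (Fin n) => x a1) hy1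
    refine ⟨?_, ?_⟩
    · simpa [h01, h01.symm] using h3
    · simpa [h01, h01.symm] using h4
  obtain ⟨⟨p, q, z⟩, hX⟩ := A_surj hp hi (Pi.single 3 1)
  have h5 := congrFun hX 3
  have hN3 : ¬ ((3 : Fin 4).1 < N) := by
    change ¬ (3 < N)
    omega
  rw [A_apply, hv, hv, dif_neg hN3, dif_neg hN3, Pi.single_eq_same] at h5
  simp at h5

theorem allows_mono {n N k l : ℕ} (h : k ≤ l) (f : Fin N → EuclideanSpace ℂ (Fin n))
    (ha : Allows l f) : Allows k f :=
  fun x y hx hy hxy => ha x y (le_trans hx h) (le_trans hy h) hxy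

section generic

variable {p M : ℕ}

/-- parameter space -/
abbrev Par (p M : ℕ) (S T : Finset (Fin (p + 1))) : Type :=
  (S → ℂ) × (T → ℂ) × (Fin M → ℝ) × (Fin (M + 1) → Fin p → ℂ)

noncomputable def xx (i0 : Fin (p + 1)) (S : Finset (Fin (p + 1))) (a : S → ℂ)
    (i : Fin (p + 1)) : ℂ := if i = i0 then 1 else if h : i ∈ S then a ⟨i, h⟩ else 0

noncomputable def yy (T : Finset (Fin (p + 1))) (b : T → ℂ) (i : Fin (p + 1)) : ℂ :=
  if h : i ∈ T then b ⟨i, h⟩ else 0

noncomputable def ph (φ : Fin M → ℝ) : Fin (M + 1) → ℂ :=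
  Fin.cons 1 (fun r => Complex.exp ((φ r : ℂ) * I))

noncomputable def zz (i0 : Fin (p + 1)) (S T : Finset (Fin (p + 1))) (q : Par p M S T)
    (r : Fin (M + 1)) (i : Fin (p + 1)) : ℂ := xx i0 S q.1 i - ph q.2.2.1 r * yy T q.2.1 i

noncomputable def Psi (i0 : Fin (p + 1)) (S T : Finset (Fin (p + 1)))
    (m : Fin (M + 1) → Fin (p + 1)) (q : Par p M S T) : Fin (M + 1) → Fin (p + 1) → ℂ :=
  fun r => (m r).insertNth (-(∑ i, q.2.2.2 r i * zz i0 S T q r ((m r).succAbove i)) *
    (zz i0 S T q r (m r))⁻¹) (q.2.2.2 r)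

theorem contDiff_zz (i0 : Fin (p + 1)) (S T : Finset (Fin (p + 1))) (r : Fin (M + 1))
    (i : Fin (p + 1)) : ContDiff ℝ 1 (fun q : Par p M S T => zz i0 S T q r i) := by
  have h1 : ContDiff ℝ 1 (fun q : Par p M S T => xx i0 S q.1 i) := by
    unfold xx
    split_ifs
    · exact contDiff_const
    · fun_prop
    · exact contDiff_const
  have h2 : ContDiff ℝ 1 (fun q : Par p M S T => yy T q.2.1 i) := by
    unfold yy
    split_ifs
    · fun_prop
    · exact contDiff_const
  have h3 : ContDiff ℝ 1 (fun q : Par p M S T => ph q.2.2.1 r) := by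
    unfold ph
    refine Fin.cases ?_ (fun r' => ?_) r
    · simp only [Fin.cons_zero]
      exact contDiff_const
    · simp only [Fin.cons_succ]
      have h4 : ContDiff ℝ 1 (fun q : Par p M S T => ((q.2.2.1 r' : ℝ) : ℂ) * I) := by
        refine ContDiff.mul ?_ contDiff_const
        exact Complex.ofRealCLM.contDiff.comp (by fun_prop)
      exact h4.cexp
  unfold zz
  exact h1.sub (h3.mul h2)

theorem contDiff_Psi (i0 : Fin (p + 1)) (S T : Finset (Fin (p + 1)))
    (m : Fin (M + 1) → Fin (p + 1)) (q : Par p M S T) (hq : ∀ r, zz i0 S T q r (m r) ≠ 0) :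
    ContDiffAt ℝ 1 (Psi i0 S T m) q := by
  rw [contDiffAt_pi]
  intro r
  rw [contDiffAt_pi]
  intro i
  unfold Psi
  rcases Fin.eq_self_or_eq_succAbove (m r) i with h | ⟨i', h⟩
  · rw [h]
    simp only [Fin.insertNth_apply_same]
    refine ContDiffAt.mul (ContDiffAt.neg (ContDiffAt.sum fun j _ => ?_)) ?_
    · refine ContDiffAt.mul ?_ (contDiff_zz i0 S T r _).contDiffAt
      fun_prop
    · exact (contDiff_zz i0 S T r _).contDiffAt.inv (hq r)
  · rw [h]
    simp only [Fin.insertNth_apply_succAbove]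
    fun_prop

theorem dimH_Psi (k : ℕ) (hk : 1 ≤ k) (hM : 4 * k ≤ M + 3) (i0 : Fin (p + 1))
    (S T : Finset (Fin (p + 1))) (m : Fin (M + 1) → Fin (p + 1)) (hS : S.card ≤ k - 1)
    (hT : T.card ≤ k) :
    dimH (Psi i0 S T m '' {q : Par p M S T | ∀ r, zz i0 S T q r (m r) ≠ 0}) ≤
      ((2 * (M + 1) * (p + 1) - 1 : ℕ) : ENNReal) := by
  refine (dimH_image_le_of_locally_lipschitzOn ?_).trans ?_
  · intro q hq
    obtain ⟨K, t, ht, hL⟩ := (contDiff_Psi i0 S T m q hq).exists_lipschitzOnWith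
    exact ⟨K, t, mem_nhdsWithin_of_mem_nhds ht, hL⟩
  · refine (dimH_mono (Set.subset_univ _)).trans ?_
    rw [Real.dimH_univ_eq_finrank]
    refine Nat.cast_le.mpr ?_
    have h1 : Module.finrank ℝ (Par p M S T) = S.card * 2 + (T.card * 2 + (M + (M + 1) * (p * 2))) := by
      rw [Module.finrank_prod, Module.finrank_prod, Module.finrank_prod]
      simp [Module.finrank_pi_fintype, Complex.finrank_real_complex]
    rw [h1]
    have h2 : 2 * (M + 1) * (p + 1) = (M + 1) * (p * 2) + 2 * M + 2 := by ring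
    rw [h2]
    omega

theorem generic (k : ℕ) (hk : 1 ≤ k) (hM : 4 * k ≤ M + 3) :
    Dense {f : Fin (M + 1) → Fin (p + 1) → ℂ | ∀ x y : Fin (p + 1) → ℂ,
      (Finset.univ.filter fun i => x i ≠ 0).card ≤ k →
      (Finset.univ.filter fun i => y i ≠ 0).card ≤ k →
      (∀ r, ‖∑ i, f r i * x i‖ = ‖∑ i, f r i * y i‖) → ∃ c : ℂ, ‖c‖ = 1 ∧ x = c • y} := by
  obtain ⟨B, hB⟩ : ∃ B : (Fin (p + 1) × Finset (Fin (p + 1)) × Finset (Fin (p + 1)) ×
      (Fin (M + 1) → Fin (p + 1))) → Set (Fin (M + 1) → Fin (p + 1) → ℂ), ∀ w, B w =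
      {f | w.2.1.card ≤ k - 1 ∧ w.2.2.1.card ≤ k ∧ f ∈ Psi w.1 w.2.1 w.2.2.1 w.2.2.2 ''
        {q : Par p M w.2.1 w.2.2.1 | ∀ r, zz w.1 w.2.1 w.2.2.1 q r (w.2.2.2 r) ≠ 0}} :=
    ⟨fun w => _, fun w => rfl⟩
  have hdim : dimH (⋃ w, B w) < Module.finrank ℝ (Fin (M + 1) → Fin (p + 1) → ℂ) := by
    rw [dimH_iUnion]
    refine lt_of_le_of_lt (iSup_le (a := ((2 * (M + 1) * (p + 1) - 1 : ℕ) : ENNReal)) ?_) ?_
    · rintro ⟨i0, S, T, m⟩
      rw [hB]
      by_cases hS : S.card ≤ k - 1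
      · by_cases hT : T.card ≤ k
        · refine (dimH_mono ?_).trans (dimH_Psi k hk hM i0 S T m hS hT)
          intro f hf
          exact hf.2.2
        · have : {f : Fin (M + 1) → Fin (p + 1) → ℂ | S.card ≤ k - 1 ∧ T.card ≤ k ∧
              f ∈ Psi i0 S T m '' {q : Par p M S T | ∀ r, zz i0 S T q r (m r) ≠ 0}} = ∅ := by
            ext f
            simp only [Set.mem_ofPred_eq, Set.mem_empty_iff_false, iff_false]
            exact fun h => hT h.2.1
          change dimH {f : Fin (M + 1) → Fin (p + 1) → ℂ | S.card ≤ k - 1 ∧ T.card ≤ k ∧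
              f ∈ Psi i0 S T m '' {q : Par p M S T | ∀ r, zz i0 S T q r (m r) ≠ 0}} ≤ _
          rw [this, dimH_empty]
          exact bot_le
      · have : {f : Fin (M + 1) → Fin (p + 1) → ℂ | S.card ≤ k - 1 ∧ T.card ≤ k ∧
              f ∈ Psi i0 S T m '' {q : Par p M S T | ∀ r, zz i0 S T q r (m r) ≠ 0}} = ∅ := by
          ext f
          simp only [Set.mem_ofPred_eq, Set.mem_empty_iff_false, iff_false]
          exact fun h => hS h.1
        change dimH {f : Fin (M + 1) → Fin (p + 1) → ℂ | S.card ≤ k - 1 ∧ T.card ≤ k ∧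
              f ∈ Psi i0 S T m '' {q : Par p M S T | ∀ r, zz i0 S T q r (m r) ≠ 0}} ≤ _
        rw [this, dimH_empty]
        exact bot_le
    · refine Nat.cast_lt.mpr ?_
      have h1 : Module.finrank ℝ (Fin (M + 1) → Fin (p + 1) → ℂ) = (M + 1) * ((p + 1) * 2) := by
        simp [Module.finrank_pi_fintype, Complex.finrank_real_complex]
      rw [h1]
      have h2 : 2 * (M + 1) * (p + 1) = (M + 1) * ((p + 1) * 2) := by ring
      rw [h2]
      have h3 : 0 < (M + 1) * ((p + 1) * 2) := by positivity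
      omega
  refine (dense_compl_of_dimH_lt_finrank hdim).mono ?_
  intro f hf x y hx hy hxy
  by_contra hcon
  apply hf
  -- a statement symmetric in x and y
  have main : ∀ x y : Fin (p + 1) → ℂ, (Finset.univ.filter fun i => x i ≠ 0).card ≤ k →
      (Finset.univ.filter fun i => y i ≠ 0).card ≤ k →
      (∀ r, ‖∑ i, f r i * x i‖ = ‖∑ i, f r i * y i‖) →
      (∀ c : ℂ, ‖c‖ = 1 → x ≠ c • y) → x ≠ 0 → f ∈ ⋃ w, B w := by
    intro x y hx hy hxy hne hx0
    obtain ⟨i0, hi0⟩ : ∃ i, x i ≠ 0 := by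
      by_contra hcon
      push Not at hcon
      exact hx0 (funext hcon)
    -- phases
    have hph : ∀ r, ∃ θ : ℝ, ∑ i, f r i * x i = Complex.exp (θ * I) * ∑ i, f r i * y i := by
      intro r
      by_cases h0 : ∑ i, f r i * y i = 0
      · refine ⟨0, ?_⟩
        have h1 := hxy r
        rw [h0, norm_zero, norm_eq_zero] at h1
        rw [h1, h0, mul_zero]
      · refine ⟨((∑ i, f r i * x i) / ∑ i, f r i * y i).arg, ?_⟩
        have h1 : ‖(∑ i, f r i * x i) / ∑ i, f r i * y i‖ = 1 := by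
          rw [norm_div, hxy r, div_self (norm_ne_zero_iff.mpr h0)]
        have h2 := Complex.norm_mul_exp_arg_mul_I ((∑ i, f r i * x i) / ∑ i, f r i * y i)
        rw [h1, Complex.ofReal_one, one_mul] at h2
        rw [h2, div_mul_cancel₀ _ h0]
    choose θ hθ using hph
    have hpiv : ∀ r, ∃ i, x i ≠ Complex.exp (θ r * I) * y i := by
      intro r
      by_contra hcon
      push Not at hcon
      refine hne (Complex.exp (θ r * I)) (Complex.norm_exp_ofReal_mul_I _) ?_
      ext i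
      rw [Pi.smul_apply, smul_eq_mul]
      exact hcon i
    choose m hm using hpiv
    obtain ⟨S, hS⟩ : ∃ S : Finset (Fin (p + 1)),
        S = (Finset.univ.filter fun i => x i ≠ 0).erase i0 := ⟨_, rfl⟩
    obtain ⟨T, hT⟩ : ∃ T : Finset (Fin (p + 1)), T = Finset.univ.filter fun i => y i ≠ 0 :=
      ⟨_, rfl⟩
    obtain ⟨q, hq⟩ : ∃ q : Par p M S T, q = (fun i => (x i0)⁻¹ * x i.1,
      fun i => (x i0)⁻¹ * Complex.exp (θ 0 * I) * y i.1, fun r => θ r.succ - θ 0,
      fun r i => f r ((m r).succAbove i)) := ⟨_, rfl⟩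
    have hxx : ∀ i, xx i0 S q.1 i = (x i0)⁻¹ * x i := by
      intro i
      unfold xx
      rw [hq]
      split_ifs with h1 h2
      · rw [h1, inv_mul_cancel₀ hi0]
      · rfl
      · have h3 : x i = 0 := by
          by_contra h4
          apply h2
          rw [hS, Finset.mem_erase, Finset.mem_filter]
          exact ⟨h1, Finset.mem_univ _, h4⟩
        rw [h3, mul_zero]
    have hyy : ∀ i, yy T q.2.1 i = (x i0)⁻¹ * Complex.exp (θ 0 * I) * y i := by
      intro i
      unfold yy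
      rw [hq]
      split_ifs with h1
      · rfl
      · have h3 : y i = 0 := by
          by_contra h4
          apply h1
          rw [hT, Finset.mem_filter]
          exact ⟨Finset.mem_univ _, h4⟩
        rw [h3, mul_zero]
    have hphs : ∀ r, ph q.2.2.1 r * Complex.exp (θ 0 * I) = Complex.exp (θ r * I) := by
      intro r
      unfold ph
      rw [hq]
      refine Fin.cases ?_ (fun r' => ?_) r
      · rw [Fin.cons_zero, one_mul]
      · rw [Fin.cons_succ, ← Complex.exp_add]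
        congr 1
        push_cast
        ring
    have hzz : ∀ r i, zz i0 S T q r i = (x i0)⁻¹ * (x i - Complex.exp (θ r * I) * y i) := by
      intro r i
      unfold zz
      rw [hxx, hyy, ← hphs r]
      ring
    have hzm : ∀ r, zz i0 S T q r (m r) ≠ 0 := by
      intro r
      rw [hzz]
      exact mul_ne_zero (inv_ne_zero hi0) (sub_ne_zero.mpr (hm r))
    have hsum : ∀ r, ∑ i, f r i * zz i0 S T q r i = 0 := by
      intro r
      have h1 : ∀ i, f r i * zz i0 S T q r i =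
          (x i0)⁻¹ * (f r i * x i - Complex.exp (θ r * I) * (f r i * y i)) := by
        intro i
        rw [hzz]
        ring
      rw [Finset.sum_congr rfl (fun i _ => h1 i), ← Finset.mul_sum, Finset.sum_sub_distrib,
        ← Finset.mul_sum, hθ r, sub_self, mul_zero]
    have hPsi : Psi i0 S T m q = f := by
      ext r i
      unfold Psi
      have hg : q.2.2.2 r = fun i => f r ((m r).succAbove i) := by rw [hq]
      rw [hg]
      rcases Fin.eq_self_or_eq_succAbove (m r) i with h | ⟨i', h⟩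
      · rw [h, Fin.insertNth_apply_same]
        have h2 := hsum r
        rw [Fin.sum_univ_succAbove _ (m r)] at h2
        rw [← div_eq_mul_inv, div_eq_iff (hzm r)]
        linear_combination -h2
      · rw [h, Fin.insertNth_apply_succAbove]
    rw [Set.mem_iUnion]
    refine ⟨(i0, S, T, m), ?_⟩
    rw [hB]
    refine ⟨?_, ?_, ⟨q, hzm, hPsi⟩⟩
    · change S.card ≤ k - 1
      have hmem : i0 ∈ Finset.univ.filter (fun i => x i ≠ 0) :=
        Finset.mem_filter.mpr ⟨Finset.mem_univ _, hi0⟩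
      rw [hS, Finset.card_erase_of_mem hmem]
      exact Nat.sub_le_sub_right hx 1
    · change T.card ≤ k
      rw [hT]
      exact hy
  by_cases hx0 : x = 0
  · refine main y x hy hx (fun r => (hxy r).symm) ?_ ?_
    · intro c hc h
      apply hcon
      refine ⟨c⁻¹, by rw [norm_inv, hc, inv_one], ?_⟩
      rw [h, smul_smul, inv_mul_cancel₀ (by intro h0; rw [h0, norm_zero] at hc; exact zero_ne_one hc),
        one_smul]
    · intro hy0
      apply hcon
      exact ⟨1, norm_one, by rw [hx0, hy0, smul_zero]⟩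
  · refine main x y hx hy hxy ?_ hx0
    intro c hc h
    exact hcon ⟨c, hc, h⟩

theorem exists_generic (k N : ℕ) (hk : 1 ≤ k) (hN : p + 1 ≤ N) (hN' : 4 * k ≤ N + 2) :
    ∃ f : Fin N → Fin (p + 1) → ℂ, (∀ x : Fin (p + 1) → ℂ, (∀ r, ∑ i, f r i * x i = 0) → x = 0) ∧
      ∀ x y : Fin (p + 1) → ℂ,
      (Finset.univ.filter fun i => x i ≠ 0).card ≤ k →
      (Finset.univ.filter fun i => y i ≠ 0).card ≤ k →
      (∀ r, ‖∑ i, f r i * x i‖ = ‖∑ i, f r i * y i‖) → ∃ c : ℂ, ‖c‖ = 1 ∧ x = c • y := by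
  obtain ⟨M, rfl⟩ : ∃ M, N = M + 1 := ⟨N - 1, by omega⟩
  have hd := generic (p := p) (M := M) k hk (by omega)
  obtain ⟨O, hO⟩ : ∃ O : Set (Fin (M + 1) → Fin (p + 1) → ℂ), O =
    {f | (Matrix.of fun i j : Fin (p + 1) => f (Fin.castLE hN i) j).det ≠ 0} := ⟨_, rfl⟩
  have hOo : IsOpen O := by
    rw [hO]
    refine isOpen_ne_fun ?_ continuous_const
    refine Continuous.matrix_det ?_
    refine continuous_matrix fun i j => ?_
    fun_prop
  have hOn : O.Nonempty := by
    refine ⟨fun r j => if r.1 = j.1 then 1 else 0, ?_⟩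
    rw [hO]
    have h1 : (Matrix.of fun i j : Fin (p + 1) =>
        (if (Fin.castLE hN i).1 = j.1 then 1 else 0 : ℂ)) = 1 := by
      ext i j
      rw [Matrix.of_apply, Matrix.one_apply]
      simp [Fin.ext_iff]
    change (Matrix.of fun i j : Fin (p + 1) =>
        (if (Fin.castLE hN i).1 = j.1 then 1 else 0 : ℂ)).det ≠ 0
    rw [h1, Matrix.det_one]
    exact one_ne_zero
  obtain ⟨f, hf1, hf2⟩ := hd.inter_open_nonempty O hOo hOn
  refine ⟨f, ?_, hf2⟩
  intro x hx
  rw [hO] at hf1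
  refine Matrix.eq_zero_of_mulVec_eq_zero hf1 ?_
  ext i
  have h1 := hx (Fin.castLE hN i)
  simpa [Matrix.mulVec, dotProduct] using h1

end generic


section known

variable {p M : ℕ}

/-- parameter space for pairs with equal moduli -/
abbrev Par2 (p M : ℕ) (S : Finset (Fin (p + 1))) : Type :=
  ℝ × (S → ℝ × ℝ × ℝ) × (Fin M → ℝ) × (Fin M → Fin p → ℂ)

noncomputable def uu (i0 j0 : Fin (p + 1)) (S : Finset (Fin (p + 1))) (a : S → ℝ × ℝ × ℝ)
    (i : Fin (p + 1)) : ℂ :=
  if i = i0 then 1 else if i = j0 then 0 else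
    if h : i ∈ S then ((a ⟨i, h⟩).1 : ℂ) * I * Complex.exp (((a ⟨i, h⟩).2.2 : ℂ) * I) else 0

noncomputable def ww (i0 j0 : Fin (p + 1)) (S : Finset (Fin (p + 1))) (α : ℝ)
    (a : S → ℝ × ℝ × ℝ) (i : Fin (p + 1)) : ℂ :=
  if i = i0 then 0 else if i = j0 then Complex.exp ((α : ℂ) * I) else
    if h : i ∈ S then ((a ⟨i, h⟩).2.1 : ℂ) * Complex.exp (((a ⟨i, h⟩).2.2 : ℂ) * I) else 0

noncomputable def zz2 (i0 j0 : Fin (p + 1)) (S : Finset (Fin (p + 1))) (q : Par2 p M S)
    (r : Fin M) (i : Fin (p + 1)) : ℂ :=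
  (Real.cos (q.2.2.1 r) : ℂ) * uu i0 j0 S q.2.1 i -
    (Real.sin (q.2.2.1 r) : ℂ) * I * ww i0 j0 S q.1 q.2.1 i

noncomputable def Psi2 (i0 j0 : Fin (p + 1)) (S : Finset (Fin (p + 1)))
    (m : Fin M → Fin (p + 1)) (q : Par2 p M S) : Fin M → Fin (p + 1) → ℂ :=
  fun r => (m r).insertNth (-(∑ i, q.2.2.2 r i * zz2 i0 j0 S q r ((m r).succAbove i)) *
    (zz2 i0 j0 S q r (m r))⁻¹) (q.2.2.2 r)

theorem contDiff_ofReal {E : Type} [NormedAddCommGroup E] [NormedSpace ℝ E] {g : E → ℝ}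
    (hg : ContDiff ℝ 1 g) : ContDiff ℝ 1 (fun q => (g q : ℂ)) :=
  Complex.ofRealCLM.contDiff.comp hg

theorem contDiff_zz2 (i0 j0 : Fin (p + 1)) (S : Finset (Fin (p + 1))) (r : Fin M)
    (i : Fin (p + 1)) : ContDiff ℝ 1 (fun q : Par2 p M S => zz2 i0 j0 S q r i) := by
  have h1 : ContDiff ℝ 1 (fun q : Par2 p M S => uu i0 j0 S q.2.1 i) := by
    unfold uu
    split_ifs
    · exact contDiff_const
    · exact contDiff_const
    · exact ((contDiff_ofReal (by fun_prop)).mul contDiff_const).mul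
        (((contDiff_ofReal (by fun_prop)).mul contDiff_const).cexp)
    · exact contDiff_const
  have h2 : ContDiff ℝ 1 (fun q : Par2 p M S => ww i0 j0 S q.1 q.2.1 i) := by
    unfold ww
    split_ifs
    · exact contDiff_const
    · exact ((contDiff_ofReal (by fun_prop)).mul contDiff_const).cexp
    · exact (contDiff_ofReal (by fun_prop)).mul
        (((contDiff_ofReal (by fun_prop)).mul contDiff_const).cexp)
    · exact contDiff_const
  have h3 : ContDiff ℝ 1 (fun q : Par2 p M S => (Real.cos (q.2.2.1 r) : ℂ)) :=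
    contDiff_ofReal (Real.contDiff_cos.comp (by fun_prop))
  have h4 : ContDiff ℝ 1 (fun q : Par2 p M S => (Real.sin (q.2.2.1 r) : ℂ)) :=
    contDiff_ofReal (Real.contDiff_sin.comp (by fun_prop))
  unfold zz2
  exact (h3.mul h1).sub ((h4.mul contDiff_const).mul h2)

theorem contDiff_Psi2 (i0 j0 : Fin (p + 1)) (S : Finset (Fin (p + 1)))
    (m : Fin M → Fin (p + 1)) (q : Par2 p M S) (hq : ∀ r, zz2 i0 j0 S q r (m r) ≠ 0) :
    ContDiffAt ℝ 1 (Psi2 i0 j0 S m) q := by
  rw [contDiffAt_pi]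
  intro r
  rw [contDiffAt_pi]
  intro i
  unfold Psi2
  rcases Fin.eq_self_or_eq_succAbove (m r) i with h | ⟨i', h⟩
  · rw [h]
    simp only [Fin.insertNth_apply_same]
    refine ContDiffAt.mul (ContDiffAt.neg (ContDiffAt.sum fun j _ => ?_)) ?_
    · refine ContDiffAt.mul ?_ (contDiff_zz2 i0 j0 S r _).contDiffAt
      fun_prop
    · exact (contDiff_zz2 i0 j0 S r _).contDiffAt.inv (hq r)
  · rw [h]
    simp only [Fin.insertNth_apply_succAbove]
    fun_prop

theorem dimH_Psi2 (k : ℕ) (hk : 2 ≤ k) (hM : 3 * k ≤ M + 4) (i0 j0 : Fin (p + 1))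
    (S : Finset (Fin (p + 1))) (m : Fin M → Fin (p + 1)) (hS : S.card ≤ k - 2) :
    dimH (Psi2 i0 j0 S m '' {q : Par2 p M S | ∀ r, zz2 i0 j0 S q r (m r) ≠ 0}) ≤
      ((2 * M * (p + 1) - 1 : ℕ) : ENNReal) := by
  refine (dimH_image_le_of_locally_lipschitzOn ?_).trans ?_
  · intro q hq
    obtain ⟨K, t, ht, hL⟩ := (contDiff_Psi2 i0 j0 S m q hq).exists_lipschitzOnWith
    exact ⟨K, t, mem_nhdsWithin_of_mem_nhds ht, hL⟩
  · refine (dimH_mono (Set.subset_univ _)).trans ?_
    rw [Real.dimH_univ_eq_finrank]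
    refine Nat.cast_le.mpr ?_
    have h1 : Module.finrank ℝ (Par2 p M S) = 1 + (S.card * 3 + (M + M * (p * 2))) := by
      rw [Module.finrank_prod, Module.finrank_prod, Module.finrank_prod]
      simp [Module.finrank_pi_fintype, Complex.finrank_real_complex, Module.finrank_prod]
    rw [h1]
    have h2 : 2 * M * (p + 1) = M * (p * 2) + 2 * M := by ring
    rw [h2]
    omega

theorem polar_pair (a b : ℂ) (h : (a * (starRingEnd ℂ) b).re = 0) :
    ∃ s t β : ℝ, a = (s : ℂ) * I * Complex.exp ((β : ℂ) * I) ∧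
      b = (t : ℂ) * Complex.exp ((β : ℂ) * I) := by
  by_cases hb : b = 0
  · refine ⟨‖-I * a‖, 0, (-I * a).arg, ?_, ?_⟩
    · have h1 := Complex.norm_mul_exp_arg_mul_I (-I * a)
      have h2 : ((‖-I * a‖ : ℝ) : ℂ) * I * Complex.exp (((-I * a).arg : ℂ) * I) =
          I * (((‖-I * a‖ : ℝ) : ℂ) * Complex.exp (((-I * a).arg : ℂ) * I)) := by ring
      rw [h2, h1]
      linear_combination a * Complex.I_mul_I
    · rw [hb]
      simp
  · have h0 : (normSq b : ℂ) ≠ 0 := by
      exact_mod_cast (fun h => hb (normSq_eq_zero.mp h))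
    refine ⟨(a * (starRingEnd ℂ) b).im / normSq b * ‖b‖, ‖b‖, b.arg, ?_, ?_⟩
    · have h1 := Complex.norm_mul_exp_arg_mul_I b
      have h2 : a * (starRingEnd ℂ) b = ((a * (starRingEnd ℂ) b).im : ℂ) * I := by
        apply Complex.ext
        · rw [h]
          simp
        · simp
      have h3 : a = ((a * (starRingEnd ℂ) b).im : ℂ) / (normSq b : ℂ) * I * b := by
        have h4 : a * (normSq b : ℂ) = ((a * (starRingEnd ℂ) b).im : ℂ) * I * b := by
          rw [← h2, ← Complex.mul_conj]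
          ring
        field_simp
        linear_combination h4
      push_cast
      have h5 : ((a * (starRingEnd ℂ) b).im : ℂ) / (normSq b : ℂ) * (‖b‖ : ℂ) * I *
          Complex.exp ((b.arg : ℂ) * I) = ((a * (starRingEnd ℂ) b).im : ℂ) / (normSq b : ℂ) * I *
          ((‖b‖ : ℂ) * Complex.exp ((b.arg : ℂ) * I)) := by ring
      rw [h5, h1]
      exact h3
    · exact (Complex.norm_mul_exp_arg_mul_I b).symm

theorem phase_pair (a b : ℂ) (h : (a * (starRingEnd ℂ) b).re = 0) :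
    ∃ φ : ℝ, (Real.cos φ : ℂ) * a - (Real.sin φ : ℂ) * I * b = 0 := by
  obtain ⟨s, t, β, ha, hb⟩ := polar_pair a b h
  obtain ⟨z, hz⟩ : ∃ z : ℂ, z = ⟨t, s⟩ := ⟨_, rfl⟩
  refine ⟨z.arg, ?_⟩
  have h1 : ‖z‖ * Real.cos z.arg = t := by
    rw [Complex.norm_mul_cos_arg, hz]
  have h2 : ‖z‖ * Real.sin z.arg = s := by
    rw [Complex.norm_mul_sin_arg, hz]
  rw [ha, hb, ← h1, ← h2]
  push_cast
  ring

theorem generic2 (k : ℕ) (hk : 2 ≤ k) (hM : 3 * k ≤ M + 4) :
    Dense {f : Fin M → Fin (p + 1) → ℂ | ∀ x y : Fin (p + 1) → ℂ,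
      (Finset.univ.filter fun i => x i ≠ 0).card ≤ k → (∀ i, ‖x i‖ = ‖y i‖) →
      (∀ r, ‖∑ i, f r i * x i‖ = ‖∑ i, f r i * y i‖) → ∃ c : ℂ, ‖c‖ = 1 ∧ x = c • y} := by
  obtain ⟨B, hB⟩ : ∃ B : (Fin (p + 1) × Fin (p + 1) × Finset (Fin (p + 1)) ×
      (Fin M → Fin (p + 1))) → Set (Fin M → Fin (p + 1) → ℂ), ∀ w, B w =
      {f | w.2.2.1.card ≤ k - 2 ∧ f ∈ Psi2 w.1 w.2.1 w.2.2.1 w.2.2.2 ''
        {q : Par2 p M w.2.2.1 | ∀ r, zz2 w.1 w.2.1 w.2.2.1 q r (w.2.2.2 r) ≠ 0}} :=
    ⟨fun w => _, fun w => rfl⟩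
  have hdim : dimH (⋃ w, B w) < Module.finrank ℝ (Fin M → Fin (p + 1) → ℂ) := by
    rw [dimH_iUnion]
    refine lt_of_le_of_lt (iSup_le (a := ((2 * M * (p + 1) - 1 : ℕ) : ENNReal)) ?_) ?_
    · rintro ⟨i0, j0, S, m⟩
      rw [hB]
      by_cases hS : S.card ≤ k - 2
      · refine (dimH_mono ?_).trans (dimH_Psi2 k hk hM i0 j0 S m hS)
        intro f hf
        exact hf.2
      · have : {f : Fin M → Fin (p + 1) → ℂ | S.card ≤ k - 2 ∧
            f ∈ Psi2 i0 j0 S m '' {q : Par2 p M S | ∀ r, zz2 i0 j0 S q r (m r) ≠ 0}} = ∅ := by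
          ext f
          simp only [Set.mem_ofPred_eq, Set.mem_empty_iff_false, iff_false]
          exact fun h => hS h.1
        change dimH {f : Fin M → Fin (p + 1) → ℂ | S.card ≤ k - 2 ∧
            f ∈ Psi2 i0 j0 S m '' {q : Par2 p M S | ∀ r, zz2 i0 j0 S q r (m r) ≠ 0}} ≤ _
        rw [this, dimH_empty]
        exact bot_le
    · refine Nat.cast_lt.mpr ?_
      have h1 : Module.finrank ℝ (Fin M → Fin (p + 1) → ℂ) = M * ((p + 1) * 2) := by
        simp [Module.finrank_pi_fintype, Complex.finrank_real_complex]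
      rw [h1]
      have h2 : 2 * M * (p + 1) = M * ((p + 1) * 2) := by ring
      rw [h2]
      have h3 : 0 < M * ((p + 1) * 2) := by
        have : 0 < M := by omega
        positivity
      omega
  refine (dense_compl_of_dimH_lt_finrank hdim).mono ?_
  intro f hf x y hx hmod hrow
  by_contra hcon
  apply hf
  obtain ⟨i0, hi0⟩ : ∃ i, x i ≠ 0 := by
    by_contra hall
    push Not at hall
    apply hcon
    refine ⟨1, norm_one, ?_⟩
    ext i
    have h1 := hmod i
    rw [hall i, norm_zero] at h1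
    rw [Pi.smul_apply, one_smul, hall i, norm_eq_zero.mp h1.symm]
  have hyi0 : y i0 ≠ 0 := by
    intro h
    have h1 := hmod i0
    rw [h, norm_zero, norm_eq_zero] at h1
    exact hi0 h1
  obtain ⟨X, hX⟩ : ∃ X : Fin (p + 1) → ℂ, ∀ i, X i = x i / x i0 := ⟨fun i => _, fun i => rfl⟩
  obtain ⟨Y, hY⟩ : ∃ Y : Fin (p + 1) → ℂ, ∀ i, Y i = y i / y i0 := ⟨fun i => _, fun i => rfl⟩
  have hns : ∀ i, normSq (X i) = normSq (Y i) := by
    intro i
    rw [hX, hY, normSq_div, normSq_div, Complex.normSq_eq_norm_sq, Complex.normSq_eq_norm_sq,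
      Complex.normSq_eq_norm_sq, Complex.normSq_eq_norm_sq, hmod i, hmod i0]
  have hXi0 : X i0 = 1 := by rw [hX, div_self hi0]
  have hYi0 : Y i0 = 1 := by rw [hY, div_self hyi0]
  have hPr : ∀ r, normSq (∑ i, f r i * X i) = normSq (∑ i, f r i * Y i) := by
    intro r
    have h1 : ∑ i, f r i * X i = (∑ i, f r i * x i) / x i0 := by
      rw [Finset.sum_div]
      refine Finset.sum_congr rfl fun i _ => ?_
      rw [hX]
      ring
    have h2 : ∑ i, f r i * Y i = (∑ i, f r i * y i) / y i0 := by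
      rw [Finset.sum_div]
      refine Finset.sum_congr rfl fun i _ => ?_
      rw [hY]
      ring
    rw [h1, h2, normSq_div, normSq_div, Complex.normSq_eq_norm_sq, Complex.normSq_eq_norm_sq,
      Complex.normSq_eq_norm_sq, Complex.normSq_eq_norm_sq, hrow r, hmod i0]
  obtain ⟨j0, hj0⟩ : ∃ j, X j ≠ Y j := by
    by_contra hall
    push Not at hall
    apply hcon
    refine ⟨x i0 / y i0, by rw [norm_div, hmod i0, div_self (norm_ne_zero_iff.mpr hyi0)], ?_⟩
    ext i
    have h1 := hall i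
    rw [hX, hY, div_eq_div_iff hi0 hyi0] at h1
    rw [Pi.smul_apply, smul_eq_mul, div_mul_eq_mul_div, eq_div_iff hyi0, h1]
    ring
  have hij : j0 ≠ i0 := by
    rintro rfl
    exact hj0 (hXi0.trans hYi0.symm)
  -- the general identity
  have hre : ∀ P Q : ℂ, normSq P = normSq Q →
      (((P + Q) / 2) * (starRingEnd ℂ) (P - Q)).re = 0 := by
    intro P Q hPQ
    have h1 : ((P + Q) / 2) * (starRingEnd ℂ) (P - Q) =
        (1 / 2 : ℝ) * ((P + Q) * (starRingEnd ℂ) (P - Q)) := by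
      push_cast
      ring
    rw [h1, Complex.re_ofReal_mul]
    simp only [Complex.normSq_apply] at hPQ
    simp only [map_sub, Complex.mul_re, Complex.add_re, Complex.add_im, Complex.sub_re,
      Complex.sub_im, Complex.conj_re, Complex.conj_im]
    linarith
  obtain ⟨s, t, α, hsU, htW⟩ := polar_pair _ _ (hre (X j0) (Y j0) (hns j0))
  have ht : t ≠ 0 := by
    intro h
    rw [h, Complex.ofReal_zero, zero_mul, sub_eq_zero] at htW
    exact hj0 htW
  have htc : (t : ℂ) ≠ 0 := by exact_mod_cast ht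
  obtain ⟨U, hU⟩ : ∃ U : ℂ → ℂ → ℂ, ∀ P Q, U P Q = (P + Q) / 2 - (s / t : ℝ) * I * (P - Q) :=
    ⟨fun P Q => _, fun P Q => rfl⟩
  obtain ⟨W, hW⟩ : ∃ W : ℂ → ℂ → ℂ, ∀ P Q, W P Q = (P - Q) / t := ⟨fun P Q => _, fun P Q => rfl⟩
  have hUW : ∀ P Q : ℂ, normSq P = normSq Q → (U P Q * (starRingEnd ℂ) (W P Q)).re = 0 := by
    intro P Q hPQ
    have h1 : U P Q * (starRingEnd ℂ) (W P Q) =
        (1 / t : ℝ) * (((P + Q) / 2) * (starRingEnd ℂ) (P - Q)) -
          ((s / t / t * normSq (P - Q) : ℝ) : ℂ) * I := by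
      rw [hU, hW, map_div₀, Complex.conj_ofReal]
      push_cast
      rw [← Complex.mul_conj]
      ring
    rw [h1, Complex.sub_re, Complex.re_ofReal_mul, hre P Q hPQ, Complex.re_ofReal_mul, Complex.I_re]
    ring
  have hpol : ∀ i, ∃ a : ℝ × ℝ × ℝ, U (X i) (Y i) = (a.1 : ℂ) * I * Complex.exp ((a.2.2 : ℂ) * I) ∧
      W (X i) (Y i) = (a.2.1 : ℂ) * Complex.exp ((a.2.2 : ℂ) * I) := by
    intro i
    obtain ⟨s', t', β', h1, h2⟩ := polar_pair _ _ (hUW (X i) (Y i) (hns i))
    exact ⟨(s', t', β'), h1, h2⟩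
  choose a ha1 ha2 using hpol
  have hphi : ∀ r, ∃ φ : ℝ, (Real.cos φ : ℂ) * U (∑ i, f r i * X i) (∑ i, f r i * Y i) -
      (Real.sin φ : ℂ) * I * W (∑ i, f r i * X i) (∑ i, f r i * Y i) = 0 :=
    fun r => phase_pair _ _ (hUW _ _ (hPr r))
  choose φ hφ using hphi
  obtain ⟨S, hS⟩ : ∃ S : Finset (Fin (p + 1)),
      S = ((Finset.univ.filter fun i => x i ≠ 0).erase i0).erase j0 := ⟨_, rfl⟩
  obtain ⟨m, hm⟩ : ∃ m : Fin M → Fin (p + 1), ∀ r, m r = if Real.cos (φ r) ≠ 0 then i0 else j0 :=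
    ⟨fun r => _, fun r => rfl⟩
  obtain ⟨q, hq⟩ : ∃ q : Par2 p M S, q = (α, (fun i => a i.1), φ,
    fun r i => f r ((m r).succAbove i)) := ⟨_, rfl⟩
  have hzero : ∀ i, i ∉ S → i ≠ i0 → i ≠ j0 → X i = 0 ∧ Y i = 0 := by
    intro i h1 h2 h3
    have h4 : x i = 0 := by
      by_contra h5
      apply h1
      rw [hS, Finset.mem_erase, Finset.mem_erase, Finset.mem_filter]
      exact ⟨h3, h2, Finset.mem_univ _, h5⟩
    have h5 : X i = 0 := by rw [hX, h4, zero_div]
    refine ⟨h5, ?_⟩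
    have h6 := hns i
    rw [h5, normSq_zero] at h6
    exact normSq_eq_zero.mp h6.symm
  have huu : ∀ i, uu i0 j0 S q.2.1 i = U (X i) (Y i) := by
    intro i
    unfold uu
    rw [hq]
    split_ifs with h1 h2 h3
    · rw [h1, hXi0, hYi0, hU]
      ring
    · rw [h2, hU, hsU, htW]
      push_cast
      field_simp
      ring
    · exact (ha1 i).symm
    · rw [(hzero i h3 h1 h2).1, (hzero i h3 h1 h2).2, hU]
      ring
  have hww : ∀ i, ww i0 j0 S q.1 q.2.1 i = W (X i) (Y i) := by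
    intro i
    unfold ww
    rw [hq]
    split_ifs with h1 h2 h3
    · rw [h1, hXi0, hYi0, hW]
      ring
    · rw [h2, hW, htW]
      field_simp
    · exact (ha2 i).symm
    · rw [(hzero i h3 h1 h2).1, (hzero i h3 h1 h2).2, hW]
      ring
  have hzz : ∀ r i, zz2 i0 j0 S q r i = (Real.cos (φ r) : ℂ) * U (X i) (Y i) -
      (Real.sin (φ r) : ℂ) * I * W (X i) (Y i) := by
    intro r i
    unfold zz2
    rw [huu, hww, hq]
  have hzm : ∀ r, zz2 i0 j0 S q r (m r) ≠ 0 := by
    intro r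
    rw [hm]
    split_ifs with h1
    · unfold zz2 uu ww
      rw [if_pos rfl, if_pos rfl, hq]
      simpa using (by exact_mod_cast h1 : (Real.cos (φ r) : ℂ) ≠ 0)
    · push Not at h1
      have h2 : Real.sin (φ r) ≠ 0 := by
        intro h3
        have h4 := Real.sin_sq_add_cos_sq (φ r)
        rw [h1, h3] at h4
        norm_num at h4
      unfold zz2 uu ww
      rw [if_neg hij, if_pos rfl, if_neg hij, if_pos rfl, hq]
      change (Real.cos (φ r) : ℂ) * 0 - (Real.sin (φ r) : ℂ) * I * Complex.exp ((α : ℂ) * I) ≠ 0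
      rw [mul_zero, zero_sub]
      exact neg_ne_zero.mpr (mul_ne_zero (mul_ne_zero (by exact_mod_cast h2) Complex.I_ne_zero)
        (Complex.exp_ne_zero _))
  have hsum : ∀ r, ∑ i, f r i * zz2 i0 j0 S q r i = 0 := by
    intro r
    rw [← hφ r, hU, hW]
    have h1 : ∀ i, f r i * zz2 i0 j0 S q r i =
        (Real.cos (φ r) : ℂ) * ((f r i * X i + f r i * Y i) / 2 -
          (s / t : ℝ) * I * (f r i * X i - f r i * Y i)) -
        (Real.sin (φ r) : ℂ) * I * ((f r i * X i - f r i * Y i) / t) := by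
      intro i
      rw [hzz, hU, hW]
      ring
    rw [Finset.sum_congr rfl (fun i _ => h1 i), Finset.sum_sub_distrib, ← Finset.mul_sum,
      ← Finset.mul_sum, Finset.sum_sub_distrib, ← Finset.sum_div, ← Finset.mul_sum,
      ← Finset.sum_div, Finset.sum_sub_distrib, Finset.sum_add_distrib]
  have hPsi : Psi2 i0 j0 S m q = f := by
    ext r i
    unfold Psi2
    have hg : q.2.2.2 r = fun i => f r ((m r).succAbove i) := by rw [hq]
    rw [hg]
    rcases Fin.eq_self_or_eq_succAbove (m r) i with h | ⟨i', h⟩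
    · rw [h, Fin.insertNth_apply_same]
      have h2 := hsum r
      rw [Fin.sum_univ_succAbove _ (m r)] at h2
      rw [← div_eq_mul_inv, div_eq_iff (hzm r)]
      linear_combination -h2
    · rw [h, Fin.insertNth_apply_succAbove]
  rw [Set.mem_iUnion]
  refine ⟨(i0, j0, S, m), ?_⟩
  rw [hB]
  refine ⟨?_, ⟨q, hzm, hPsi⟩⟩
  change S.card ≤ k - 2
  have hmem : i0 ∈ Finset.univ.filter (fun i => x i ≠ 0) :=
    Finset.mem_filter.mpr ⟨Finset.mem_univ _, hi0⟩
  have hxj0 : x j0 ≠ 0 := by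
    intro h
    have h5 : X j0 = 0 := by rw [hX, h, zero_div]
    have h6 := hns j0
    rw [h5, normSq_zero] at h6
    have h7 : Y j0 = 0 := normSq_eq_zero.mp h6.symm
    exact hj0 (h5.trans h7.symm)
  have hmem2 : j0 ∈ (Finset.univ.filter (fun i => x i ≠ 0)).erase i0 :=
    Finset.mem_erase.mpr ⟨hij, Finset.mem_filter.mpr ⟨Finset.mem_univ _, hxj0⟩⟩
  rw [hS, Finset.card_erase_of_mem hmem2, Finset.card_erase_of_mem hmem]
  omega

end known

/-- extension by zero -/
noncomputable def ext0 (k n : ℕ) : (Fin k → ℂ) →ₗ[ℂ] EuclideanSpace ℂ (Fin n) where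
  toFun x := WithLp.toLp 2 fun j => if h : j.1 < k then x ⟨j.1, h⟩ else 0
  map_add' := by
    intro x y
    ext j
    simp only [PiLp.add_apply]
    split_ifs
    · rfl
    · rw [add_zero]
  map_smul' := by
    intro c x
    ext j
    simp only [PiLp.smul_apply, RingHom.id_apply]
    split_ifs
    · rfl
    · rw [smul_zero]

theorem ext0_sparse {k n : ℕ} (hn : k ≤ n) (x : Fin k → ℂ) : Sparse k (ext0 k n x) := by
  unfold Sparse
  have h1 : (Finset.univ.filter fun i => (ext0 k n x) i ≠ 0) ⊆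
      Finset.univ.image (Fin.castLE hn) := by
    intro j hj
    rw [Finset.mem_filter] at hj
    rw [Finset.mem_image]
    by_cases h : j.1 < k
    · exact ⟨⟨j.1, h⟩, Finset.mem_univ _, rfl⟩
    · exfalso
      apply hj.2
      change (if h : j.1 < k then x ⟨j.1, h⟩ else 0) = 0
      rw [dif_neg h]
  refine (Finset.card_le_card h1).trans (Finset.card_image_le.trans ?_)
  rw [Finset.card_univ, Fintype.card_fin]

theorem lower3 {n k N : ℕ} (hk : 1 ≤ k) (hn : k ≤ n) (hN : N + 3 ≤ 3 * k)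
    (f : Fin N → EuclideanSpace ℂ (Fin n)) (ha : Allows k f) : False := by
  -- a nonzero vector orthogonal to `k - 1` rows
  obtain ⟨L1, hL1⟩ : ∃ L : (Fin k → ℂ) →ₗ[ℂ] (Fin (k - 1) → ℂ), ∀ x s, L x s =
      if h : s.1 < N then inner ℂ (f ⟨s.1, h⟩) (ext0 k n x) else 0 := by
    refine ⟨⟨⟨fun x s => if h : s.1 < N then inner ℂ (f ⟨s.1, h⟩) (ext0 k n x) else 0, ?_⟩, ?_⟩,
      fun x s => rfl⟩
    · intro x y
      ext s
      simp only [Pi.add_apply]
      split_ifs
      · rw [map_add, inner_add_right]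
      · rw [add_zero]
    · intro c x
      ext s
      simp only [Pi.smul_apply, RingHom.id_apply]
      split_ifs
      · rw [map_smul, inner_smul_right, smul_eq_mul]
      · rw [smul_zero]
  obtain ⟨x, hx, hx0⟩ : ∃ x ∈ LinearMap.ker L1, x ≠ 0 := by
    have h1 : LinearMap.ker L1 ≠ ⊥ := by
      apply LinearMap.ker_ne_bot_of_finrank_lt
      simp
      omega
    exact (Submodule.ne_bot_iff _).mp h1
  obtain ⟨i0, hi0⟩ : ∃ i, x i ≠ 0 := by
    by_contra hcon
    push Not at hcon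
    exact hx0 (funext hcon)
  obtain ⟨L2, hL2⟩ : ∃ L : (Fin k → ℂ) →ₗ[ℝ] ((Fin (2 * k - 2) → ℝ) × ℝ), ∀ w, L w =
      (fun s : Fin (2 * k - 2) => if h : k - 1 + s.1 < N then (inner ℂ (f ⟨k - 1 + s.1, h⟩) (ext0 k n x) *
        (starRingEnd ℂ) (inner ℂ (f ⟨k - 1 + s.1, h⟩) (ext0 k n w))).re else 0,
        (w i0 * (starRingEnd ℂ) (x i0)).im) := by
    refine ⟨⟨⟨fun w => (fun s : Fin (2 * k - 2) => if h : k - 1 + s.1 < N then
        (inner ℂ (f ⟨k - 1 + s.1, h⟩) (ext0 k n x) *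
        (starRingEnd ℂ) (inner ℂ (f ⟨k - 1 + s.1, h⟩) (ext0 k n w))).re else 0,
        (w i0 * (starRingEnd ℂ) (x i0)).im), ?_⟩, ?_⟩, fun w => rfl⟩
    · intro a b
      refine Prod.ext ?_ ?_
      · ext s
        simp only [Prod.fst_add, Pi.add_apply]
        split_ifs
        · rw [map_add, inner_add_right, map_add, mul_add, Complex.add_re]
        · rw [add_zero]
      · simp only [Prod.snd_add, Pi.add_apply]
        rw [add_mul, Complex.add_im]
    · intro c a
      have hc : (c • a) = (c : ℂ) • a := by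
        ext i
        simp
      refine Prod.ext ?_ ?_
      · ext s
        simp only [Prod.smul_fst, Pi.smul_apply, RingHom.id_apply, smul_eq_mul]
        split_ifs
        · rw [hc, map_smul, inner_smul_right, map_mul, Complex.conj_ofReal]
          have h2 : ∀ u v : ℂ, (u * ((c : ℂ) * v)).re = c * (u * v).re := by
            intro u v
            rw [← Complex.re_ofReal_mul]
            congr 1
            ring
          exact h2 _ _
        · rw [mul_zero]
      · simp only [Prod.smul_snd, Pi.smul_apply, RingHom.id_apply, smul_eq_mul]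
        rw [Complex.real_smul, mul_assoc, Complex.im_ofReal_mul]
  obtain ⟨w, hw, hw0⟩ : ∃ w ∈ LinearMap.ker L2, w ≠ 0 := by
    have h1 : LinearMap.ker L2 ≠ ⊥ := by
      apply LinearMap.ker_ne_bot_of_finrank_lt
      rw [Module.finrank_prod]
      simp [Module.finrank_pi_fintype, Complex.finrank_real_complex]
      omega
    exact (Submodule.ne_bot_iff _).mp h1
  rw [LinearMap.mem_ker] at hx hw
  rw [hL2] at hw
  have hw1 := (Prod.ext_iff.mp hw).1
  have hw2 : (w i0 * (starRingEnd ℂ) (x i0)).im = 0 := (Prod.ext_iff.mp hw).2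
  have hre : ∀ r, (inner ℂ (f r) (ext0 k n x) *
      (starRingEnd ℂ) (inner ℂ (f r) (ext0 k n w))).re = 0 := by
    intro r
    by_cases hr : r.1 < k - 1
    · have h2 := congrFun hx ⟨r.1, hr⟩
      rw [hL1, dif_pos r.2] at h2
      have h3 : inner ℂ (f r) (ext0 k n x) = (0 : ℂ) := h2
      rw [h3, zero_mul, Complex.zero_re]
    · have h2 := congrFun hw1 ⟨r.1 - (k - 1), by omega⟩
      have h3 : k - 1 + (r.1 - (k - 1)) = r.1 := by omega
      have h4 : k - 1 + (r.1 - (k - 1)) < N := by omega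
      simp only [Prod.fst_zero, Pi.zero_apply] at h2
      rw [dif_pos h4] at h2
      have h5 : (⟨k - 1 + (r.1 - (k - 1)), h4⟩ : Fin N) = r := Fin.ext h3
      rw [h5] at h2
      exact h2
  obtain ⟨c, hc, hxy⟩ := ha (ext0 k n (x + w)) (ext0 k n (x - w)) (ext0_sparse hn _)
    (ext0_sparse hn _) (by
      intro r
      rw [map_add, map_sub, inner_add_right, inner_sub_right]
      have h2 := hre r
      obtain ⟨a, ha'⟩ : ∃ a : ℂ, a = inner ℂ (f r) (ext0 k n x) := ⟨_, rfl⟩
      obtain ⟨b, hb'⟩ : ∃ b : ℂ, b = inner ℂ (f r) (ext0 k n w) := ⟨_, rfl⟩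
      rw [← ha', ← hb'] at h2 ⊢
      have h3 : normSq (a + b) = normSq (a - b) := by
        rw [normSq_add, normSq_sub, h2]
        ring
      rw [Complex.normSq_eq_norm_sq, Complex.normSq_eq_norm_sq] at h3
      exact (sq_eq_sq₀ (norm_nonneg _) (norm_nonneg _)).mp h3)
  have hcoord : ∀ i : Fin k, x i + w i = c * (x i - w i) := by
    intro i
    have h2 := congrArg (fun z : EuclideanSpace ℂ (Fin n) => z (Fin.castLE hn i)) hxy
    have h3 : ∀ z : Fin k → ℂ, (ext0 k n z) (Fin.castLE hn i) = z i := by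
      intro z
      change (if h : (Fin.castLE hn i).1 < k then z ⟨(Fin.castLE hn i).1, h⟩ else 0) = z i
      exact dif_pos i.2
    have h4 : (ext0 k n (x + w)) (Fin.castLE hn i) =
      c * (ext0 k n (x - w)) (Fin.castLE hn i) := h2
    rw [h3, h3] at h4
    exact h4
  have hc1 : 1 + c ≠ 0 := by
    intro h
    have h2 : c = -1 := by linear_combination h
    have h3 := hcoord i0
    rw [h2] at h3
    apply hi0
    linear_combination (1 / 2 : ℂ) * h3
  have hcc : c * (starRingEnd ℂ) c = 1 := by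
    rw [Complex.mul_conj, Complex.normSq_eq_norm_sq, hc]
    simp
  have h5 : (1 + c) * (w i0 * (starRingEnd ℂ) (x i0)) =
      (c - 1) * (x i0 * (starRingEnd ℂ) (x i0)) := by
    have h6 := hcoord i0
    linear_combination (starRingEnd ℂ) (x i0) * h6
  -- `w i0 * conj (x i0)` is real and purely imaginary
  obtain ⟨a, ha'⟩ : ∃ a : ℝ, w i0 * (starRingEnd ℂ) (x i0) = (a : ℂ) :=
    ⟨(w i0 * (starRingEnd ℂ) (x i0)).re, by
      apply Complex.ext
      · simp
      · rw [hw2, Complex.ofReal_im]⟩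
  rw [ha', Complex.mul_conj] at h5
  have h7 := congrArg (starRingEnd ℂ) h5
  rw [map_mul, map_mul, map_add, map_sub, map_one, Complex.conj_ofReal, Complex.conj_ofReal] at h7
  have h8 : (a : ℂ) * (1 + c) = 0 := by
    linear_combination (1 / 2 : ℂ) * h5 + (1 / 2 : ℂ) * c * h7 +
      ((1 / 2 : ℂ) * (normSq (x i0) : ℂ) - (1 / 2 : ℂ) * (a : ℂ)) * hcc
  have h9 : (a : ℂ) = 0 := by
    rcases mul_eq_zero.mp h8 with h | h
    · exact h
    · exact absurd h hc1
  rw [h9, mul_zero] at h5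
  have h10 : (normSq (x i0) : ℂ) ≠ 0 := by
    exact_mod_cast (fun h => hi0 (normSq_eq_zero.mp h))
  have h11 : c = 1 := by
    rcases mul_eq_zero.mp h5.symm with h | h
    · linear_combination h
    · exact absurd h h10
  apply hw0
  ext i
  have h12 := hcoord i
  rw [h11] at h12
  rw [Pi.zero_apply]
  linear_combination (1 / 2 : ℂ) * h12


theorem exists_frame (n k N : ℕ) (hn : 1 ≤ n) (hk : 1 ≤ k) (h1 : n ≤ N) (h2 : 4 * k ≤ N + 2) :
    ∃ f : Fin N → EuclideanSpace ℂ (Fin n), IsFrame f ∧ Allows k f := by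
  obtain ⟨p, rfl⟩ : ∃ p, n = p + 1 := ⟨n - 1, by omega⟩
  obtain ⟨f, hf1, hf2⟩ := exists_generic (p := p) k N hk h1 h2
  obtain ⟨g, hg⟩ : ∃ g : Fin N → EuclideanSpace ℂ (Fin (p + 1)),
    ∀ r, g r = WithLp.toLp 2 fun i => (starRingEnd ℂ) (f r i) := ⟨fun r => _, fun r => rfl⟩
  have hin : ∀ r x, inner ℂ (g r) x = ∑ i, f r i * x i := by
    intro r x
    rw [inner_eq, hg]
    refine Finset.sum_congr rfl fun i _ => ?_
    change (starRingEnd ℂ) ((starRingEnd ℂ) (f r i)) * x i = _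
    rw [Complex.conj_conj]
  refine ⟨g, ?_, ?_⟩
  · unfold IsFrame
    rw [← Submodule.orthogonal_eq_bot_iff, eq_bot_iff]
    intro y hy
    rw [Submodule.mem_orthogonal] at hy
    have h3 := hf1 y.ofLp (by
      intro r
      rw [← hin r y]
      exact hy _ (Submodule.subset_span ⟨r, rfl⟩))
    rw [Submodule.mem_bot]
    ext i
    exact congrFun h3 i
  · intro x y hx hy hxy
    obtain ⟨c, hc, h3⟩ := hf2 x.ofLp y.ofLp hx hy (by
      intro r
      rw [← hin r x, ← hin r y]
      exact hxy r)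
    refine ⟨c, hc, ?_⟩
    ext i
    exact congrFun h3 i

theorem Nmin_mem {n k : ℕ} (hn : 1 ≤ n) (hk : 1 ≤ k) :
    ∃ f : Fin (Nmin n k) → EuclideanSpace ℂ (Fin n), IsFrame f ∧ Allows k f :=
  Nat.sInf_mem (s := {N : ℕ | ∃ f : Fin N → EuclideanSpace ℂ (Fin n), IsFrame f ∧ Allows k f})
    ⟨n + 4 * k, exists_frame n k (n + 4 * k) hn hk (by omega) (by omega)⟩

theorem Nmin_ge {n k : ℕ} (hn : 1 ≤ n) (hk : 1 ≤ k) : n ≤ Nmin n k := by
  obtain ⟨f, hf, -⟩ := Nmin_mem hn hk
  exact card_of_frame f hf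

theorem Nmin_general {n k : ℕ} (hn : 1 ≤ n) (hk : 1 ≤ k) : Nmin n k ≤ max n (4 * k - 2) :=
  Nat.sInf_le (exists_frame n k _ hn hk (le_max_left _ _) (by
    have := le_max_right n (4 * k - 2)
    omega))

theorem Nmin_one (k : ℕ) (hk : 1 ≤ k) : Nmin 1 k = 1 := by
  refine le_antisymm (Nat.sInf_le ?_) (Nmin_ge le_rfl hk)
  refine ⟨fun _ => EuclideanSpace.single 0 1, frame_of_single _ fun i => ⟨0, ?_⟩, ?_⟩
  · rw [Subsingleton.elim i 0]
  · intro x y _ _ h
    have h1 := h 0
    rw [EuclideanSpace.inner_single_left, EuclideanSpace.inner_single_left] at h1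
    simp only [map_one, one_mul] at h1
    by_cases hy : y 0 = 0
    · rw [hy, norm_zero, norm_eq_zero] at h1
      refine ⟨1, norm_one, ?_⟩
      ext i
      rw [Subsingleton.elim i 0, one_smul, h1, hy]
    · refine ⟨x 0 / y 0, ?_, ?_⟩
      · rw [norm_div, h1, div_self (norm_ne_zero_iff.mpr hy)]
      · ext i
        rw [Subsingleton.elim i 0]
        change x 0 = (x 0 / y 0) * y 0
        rw [div_mul_cancel₀ _ hy]

theorem five_le {n k : ℕ} (hn : 3 ≤ n) (hk : 2 ≤ k) : 5 ≤ Nmin n k := by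
  obtain ⟨f, hf, ha⟩ := Nmin_mem (n := n) (k := k) (by omega) (by omega)
  by_contra hcon
  exact lower hn (by omega) f hf (allows_mono hk f ha)

theorem four_le {n k : ℕ} (hn : 2 ≤ n) (hk : 2 ≤ k) : 4 ≤ Nmin n k := by
  obtain ⟨f, hf, ha⟩ := Nmin_mem (n := n) (k := k) (by omega) (by omega)
  by_contra hcon
  exact lower2 hn (by omega) f hf (allows_mono hk f ha)



/-- a Hermitian `3 × 3` matrix given by its entries -/
noncomputable def mk3 (X : ℝ × ℝ × ℝ × ℂ × ℂ × ℂ) : Matrix (Fin 3) (Fin 3) ℂ :=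
  !![(X.1 : ℂ), X.2.2.2.1, X.2.2.2.2.1; (starRingEnd ℂ) X.2.2.2.1, (X.2.1 : ℂ), X.2.2.2.2.2;
    (starRingEnd ℂ) X.2.2.2.2.1, (starRingEnd ℂ) X.2.2.2.2.2, (X.2.2.1 : ℂ)]

noncomputable def det3 (X : ℝ × ℝ × ℝ × ℂ × ℂ × ℂ) : ℝ :=
  X.1 * X.2.1 * X.2.2.1 + 2 * (X.2.2.2.1 * X.2.2.2.2.2 * (starRingEnd ℂ) X.2.2.2.2.1).re -
    X.1 * normSq X.2.2.2.2.2 - X.2.1 * normSq X.2.2.2.2.1 - X.2.2.1 * normSq X.2.2.2.1

theorem mk3_herm (X : ℝ × ℝ × ℝ × ℂ × ℂ × ℂ) : (mk3 X).IsHermitian := by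
  ext i j
  fin_cases i <;> fin_cases j <;> simp [mk3, Matrix.conjTranspose_apply]

theorem mk3_det (X : ℝ × ℝ × ℝ × ℂ × ℂ × ℂ) : (mk3 X).det = (det3 X : ℂ) := by
  rw [Matrix.det_fin_three]
  simp only [mk3, det3, Matrix.of_apply, Matrix.cons_val', Matrix.cons_val_zero,
    Matrix.cons_val_one, Matrix.cons_val, Matrix.cons_val_fin_one]
  apply Complex.ext
  · simp only [Complex.normSq_apply, Complex.mul_re, Complex.mul_im, Complex.add_re,
      Complex.add_im, Complex.sub_re, Complex.sub_im, Complex.conj_re, Complex.conj_im,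
      Complex.ofReal_re, Complex.ofReal_im]
    ring
  · simp only [Complex.normSq_apply, Complex.mul_re, Complex.mul_im, Complex.add_re,
      Complex.add_im, Complex.sub_re, Complex.sub_im, Complex.conj_re, Complex.conj_im,
      Complex.ofReal_re, Complex.ofReal_im]
    ring

theorem det3_root (X Y : ℝ × ℝ × ℝ × ℂ × ℂ × ℂ) (hY : det3 Y ≠ 0) :
    ∃ t : ℝ, det3 (X + t • Y) = 0 := by
  obtain ⟨d, hd⟩ : ∃ d : ℝ → ℝ, ∀ t, d t = det3 (X + t • Y) := ⟨fun t => _, fun t => rfl⟩
  have key : ∀ t, d t = det3 Y * t ^ 3 + ((d 1 + d (-1)) / 2 - d 0) * t ^ 2 +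
      ((d 1 - d (-1)) / 2 - det3 Y) * t + d 0 := by
    intro t
    obtain ⟨a, b, c, p, q, s⟩ := X
    obtain ⟨a', b', c', p', q', s'⟩ := Y
    rw [hd, hd, hd, hd]
    simp only [det3, Prod.smul_mk, Prod.mk_add_mk, smul_eq_mul, Complex.real_smul,
      Complex.normSq_apply, Complex.mul_re, Complex.mul_im, Complex.add_re,
      Complex.add_im, Complex.conj_re, Complex.conj_im, Complex.ofReal_re, Complex.ofReal_im]
    ring
  have hc : Continuous d := by
    have : d = fun t => det3 Y * t ^ 3 + ((d 1 + d (-1)) / 2 - d 0) * t ^ 2 +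
      ((d 1 - d (-1)) / 2 - det3 Y) * t + d 0 := funext key
    rw [this]
    fun_prop
  have pos : ∃ T, 0 < d T := by
    rcases lt_or_gt_of_ne hY with h | h
    · obtain ⟨T, -, hT⟩ := cubic_pos (-det3 Y) ((d 1 + d (-1)) / 2 - d 0)
        (-((d 1 - d (-1)) / 2 - det3 Y)) (d 0) 0 (by linarith)
      refine ⟨-T, ?_⟩
      rw [key (-T)]
      nlinarith
    · obtain ⟨T, -, hT⟩ := cubic_pos (det3 Y) ((d 1 + d (-1)) / 2 - d 0)
        (((d 1 - d (-1)) / 2 - det3 Y)) (d 0) 0 h
      refine ⟨T, ?_⟩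
      rw [key T]
      exact hT
  have neg : ∃ T, d T < 0 := by
    rcases lt_or_gt_of_ne hY with h | h
    · obtain ⟨T, -, hT⟩ := cubic_pos (-det3 Y) (-((d 1 + d (-1)) / 2 - d 0))
        (-((d 1 - d (-1)) / 2 - det3 Y)) (-d 0) 0 (by linarith)
      refine ⟨T, ?_⟩
      rw [key T]
      nlinarith
    · obtain ⟨T, -, hT⟩ := cubic_pos (det3 Y) (-((d 1 + d (-1)) / 2 - d 0))
        (((d 1 - d (-1)) / 2 - det3 Y)) (-d 0) 0 h
      refine ⟨-T, ?_⟩
      rw [key (-T)]
      nlinarith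
  obtain ⟨T1, h1⟩ := pos
  obtain ⟨T2, h2⟩ := neg
  obtain ⟨t, ht⟩ := mem_range_of_exists_le_of_exists_ge hc ⟨T2, h2.le⟩ ⟨T1, h1.le⟩
  exact ⟨t, by rw [← hd, ht]⟩

theorem exists_rank_two {N : ℕ} (hN : N ≤ 7) (v : Fin 3 → Fin N → ℂ) :
    ∃ D : Matrix (Fin 3) (Fin 3) ℂ, D.IsHermitian ∧ D ≠ 0 ∧ D.det = 0 ∧
      ∀ r, ∑ i, ∑ j, v i r * D i j * (starRingEnd ℂ) (v j r) = 0 := by
  obtain ⟨L, hL⟩ : ∃ L : (ℝ × ℝ × ℝ × ℂ × ℂ × ℂ) →ₗ[ℝ] (Fin N → ℝ), ∀ X r, L X r =
      X.1 * normSq (v 0 r) + X.2.1 * normSq (v 1 r) + X.2.2.1 * normSq (v 2 r) +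
      2 * (X.2.2.2.1 * (v 0 r * (starRingEnd ℂ) (v 1 r))).re +
      2 * (X.2.2.2.2.1 * (v 0 r * (starRingEnd ℂ) (v 2 r))).re +
      2 * (X.2.2.2.2.2 * (v 1 r * (starRingEnd ℂ) (v 2 r))).re := by
    refine ⟨⟨⟨fun X r => X.1 * normSq (v 0 r) + X.2.1 * normSq (v 1 r) + X.2.2.1 * normSq (v 2 r) +
      2 * (X.2.2.2.1 * (v 0 r * (starRingEnd ℂ) (v 1 r))).re +
      2 * (X.2.2.2.2.1 * (v 0 r * (starRingEnd ℂ) (v 2 r))).re +
      2 * (X.2.2.2.2.2 * (v 1 r * (starRingEnd ℂ) (v 2 r))).re, ?_⟩, ?_⟩, fun X r => rfl⟩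
    · intro X Y
      ext r
      simp only [Prod.fst_add, Prod.snd_add, Pi.add_apply, add_mul, Complex.add_re]
      ring
    · intro c X
      ext r
      simp only [Prod.smul_fst, Prod.smul_snd, smul_eq_mul, RingHom.id_apply, Pi.smul_apply,
        Complex.real_smul, Complex.mul_re, Complex.mul_im, Complex.ofReal_re, Complex.ofReal_im]
      ring
  have hfr : Module.finrank ℝ (ℝ × ℝ × ℝ × ℂ × ℂ × ℂ) = 9 := by
    simp [Module.finrank_prod, Complex.finrank_real_complex]
  obtain ⟨X, hX, hX0⟩ : ∃ X ∈ LinearMap.ker L, X ≠ 0 := by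
    have h1 : LinearMap.ker L ≠ ⊥ := by
      apply LinearMap.ker_ne_bot_of_finrank_lt
      rw [hfr]
      simp
      omega
    exact (Submodule.ne_bot_iff _).mp h1
  obtain ⟨φ, hφ⟩ : ∃ φ : Module.Dual ℝ (ℝ × ℝ × ℝ × ℂ × ℂ × ℂ), φ X ≠ 0 := by
    by_contra hcon
    push Not at hcon
    exact hX0 ((Module.forall_dual_apply_eq_zero_iff ℝ X).mp hcon)
  obtain ⟨Y, hY, hY0⟩ : ∃ Y ∈ LinearMap.ker (L.prod φ), Y ≠ 0 := by
    have h1 : LinearMap.ker (L.prod φ) ≠ ⊥ := by
      apply LinearMap.ker_ne_bot_of_finrank_lt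
      rw [hfr, Module.finrank_prod]
      simp
      omega
    exact (Submodule.ne_bot_iff _).mp h1
  rw [LinearMap.mem_ker] at hX hY
  replace hY : L Y = 0 ∧ φ Y = 0 := ⟨congrArg Prod.fst hY, congrArg Prod.snd hY⟩
  have hquad : ∀ Z, L Z = 0 → ∀ r, ∑ i, ∑ j, v i r * mk3 Z i j * (starRingEnd ℂ) (v j r) = 0 := by
    intro Z hZ r
    have h1 := congrFun hZ r
    rw [hL, Pi.zero_apply] at h1
    obtain ⟨a, b, c, p, q, s⟩ := Z
    simp only [Fin.sum_univ_three, mk3, Matrix.of_apply, Matrix.cons_val', Matrix.cons_val_zero,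
      Matrix.cons_val_one, Matrix.cons_val, Matrix.cons_val_fin_one]
    apply Complex.ext
    · rw [Complex.zero_re, ← h1]
      simp only [Complex.normSq_apply, Complex.mul_re, Complex.mul_im, Complex.add_re,
        Complex.add_im, Complex.conj_re, Complex.conj_im, Complex.ofReal_re, Complex.ofReal_im]
      ring
    · simp only [Complex.mul_re, Complex.mul_im, Complex.add_re, Complex.zero_im,
        Complex.add_im, Complex.conj_re, Complex.conj_im, Complex.ofReal_re, Complex.ofReal_im]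
      ring
  have hmk0 : ∀ Z, mk3 Z = 0 → Z = 0 := by
    rintro ⟨a, b, c, p, q, s⟩ hZ
    have e1 := congrFun (congrFun hZ 0) 0
    have e2 := congrFun (congrFun hZ 1) 1
    have e3 := congrFun (congrFun hZ 2) 2
    have e4 := congrFun (congrFun hZ 0) 1
    have e5 := congrFun (congrFun hZ 0) 2
    have e6 := congrFun (congrFun hZ 1) 2
    simp [mk3] at e1 e2 e3 e4 e5 e6
    rw [e1, e2, e3, e4, e5, e6]
    rfl
  by_cases hdet : det3 Y = 0
  · refine ⟨mk3 Y, mk3_herm Y, fun h => hY0 (hmk0 Y h), ?_, hquad Y hY.1⟩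
    rw [mk3_det, hdet, Complex.ofReal_zero]
  · obtain ⟨t, ht⟩ := det3_root X Y hdet
    refine ⟨mk3 (X + t • Y), mk3_herm _, fun h => ?_, ?_, hquad _ ?_⟩
    · have h1 := hmk0 _ h
      have h2 := congrArg φ h1
      rw [map_add, map_smul, hY.2, smul_zero, add_zero, map_zero] at h2
      exact hφ h2
    · rw [mk3_det, ht, Complex.ofReal_zero]
    · rw [map_add, map_smul, hX, hY.1, smul_zero, add_zero]

theorem no7 {N : ℕ} (hN : N ≤ 7) (v : Fin 3 → Fin N → ℂ)
    (hPR : ∀ x y : Fin 3 → ℂ, (∀ r, normSq (∑ i, v i r * x i) = normSq (∑ i, v i r * y i)) →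
      ∃ c : ℂ, x = c • y) : False := by
  obtain ⟨D, hD, hD0, hdet, hquad⟩ := exists_rank_two hN v
  obtain ⟨U, hU⟩ : ∃ U : Matrix (Fin 3) (Fin 3) ℂ, U = (hD.eigenvectorUnitary : Matrix _ _ ℂ) :=
    ⟨_, rfl⟩
  obtain ⟨l, hl⟩ : ∃ l : Fin 3 → ℝ, l = hD.eigenvalues := ⟨_, rfl⟩
  have hUU : ∀ a b, ∑ i, (starRingEnd ℂ) (U i a) * U i b = if a = b then 1 else 0 := by
    intro a b
    have h1 : star U * U = 1 := by
      rw [hU]
      exact Unitary.coe_star_mul_self hD.eigenvectorUnitary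
    have h2 := congrFun (congrFun h1 a) b
    rw [Matrix.mul_apply, Matrix.one_apply] at h2
    rw [← h2]
    rfl
  have hDU : ∀ i j, D i j = ∑ m, U i m * (l m : ℂ) * (starRingEnd ℂ) (U j m) := by
    intro i j
    have h1 : D = U * Matrix.diagonal (RCLike.ofReal ∘ l) * star U := by
      rw [hU, hl]
      have h2 := hD.spectral_theorem
      rw [Unitary.conjStarAlgAut_apply] at h2
      exact h2
    have h2 := congrFun (congrFun h1 i) j
    rw [Matrix.mul_apply] at h2
    rw [h2]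
    refine Finset.sum_congr rfl fun m _ => ?_
    rw [Matrix.mul_diagonal]
    rfl
  have hform : ∀ r, ∑ m, l m * normSq (∑ i, v i r * U i m) = 0 := by
    intro r
    have h1 : (((∑ m, l m * normSq (∑ i, v i r * U i m) : ℝ)) : ℂ) = 0 := by
      rw [← hquad r]
      push_cast
      have h2 : ∀ m, (l m : ℂ) * (normSq (∑ i, v i r * U i m) : ℂ) =
          ∑ i, ∑ j, v i r * (U i m * (l m : ℂ) * (starRingEnd ℂ) (U j m)) *
            (starRingEnd ℂ) (v j r) := by
        intro m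
        rw [← Complex.mul_conj, map_sum, Finset.sum_mul_sum, Finset.mul_sum]
        refine Finset.sum_congr rfl fun i _ => ?_
        rw [Finset.mul_sum]
        refine Finset.sum_congr rfl fun j _ => ?_
        rw [map_mul]
        ring
      rw [Finset.sum_congr rfl (fun m _ => h2 m), Finset.sum_comm]
      refine Finset.sum_congr rfl fun i _ => ?_
      rw [Finset.sum_comm]
      refine Finset.sum_congr rfl fun j _ => ?_
      rw [hDU i j, Finset.mul_sum, Finset.sum_mul]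
    exact_mod_cast h1
  have hcol : ∀ m, (fun i => U i m) ≠ 0 := by
    intro m h
    have h1 := hUU m m
    rw [if_pos rfl] at h1
    have h2 : ∀ i, U i m = 0 := fun i => congrFun h i
    simp [h2] at h1
  have hlne : ∃ m, l m ≠ 0 := by
    by_contra hcon
    push Not at hcon
    apply hD0
    rw [← hD.eigenvalues_eq_zero_iff, ← hl]
    exact funext hcon
  have hprod : ∃ m, l m = 0 := by
    have h1 := hD.det_eq_prod_eigenvalues
    rw [hdet, ← hl] at h1
    have h2 := Finset.prod_eq_zero_iff.mp h1.symm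
    obtain ⟨m, -, hm⟩ := h2
    exact ⟨m, by simpa using hm⟩
  -- a column on which all rows vanish gives a contradiction
  have hvan : ∀ m, (∀ r, normSq (∑ i, v i r * U i m) = 0) → False := by
    intro m hm
    obtain ⟨c, hc⟩ := hPR (fun i => U i m) 0 (by
      intro r
      rw [hm r]
      simp)
    rw [smul_zero] at hc
    exact hcol m hc
  by_cases hp : ∃ m, 0 < l m
  · by_cases hn : ∃ m, l m < 0
    · obtain ⟨m1, hm1⟩ := hp
      obtain ⟨m2, hm2⟩ := hn
      obtain ⟨m0, hm0⟩ := hprod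
      have h12 : m1 ≠ m2 := by
        rintro rfl
        linarith
      have h10 : m1 ≠ m0 := by
        rintro rfl
        linarith
      have h20 : m2 ≠ m0 := by
        rintro rfl
        linarith
      have hsum : ∀ r, l m1 * normSq (∑ i, v i r * U i m1) +
          l m2 * normSq (∑ i, v i r * U i m2) = 0 := by
        intro r
        rw [← hform r]
        symm
        refine Finset.sum_eq_add m1 m2 h12 (fun m _ hm => ?_)
          (fun h => absurd (Finset.mem_univ _) h) (fun h => absurd (Finset.mem_univ _) h)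
        have h3 : m = m0 := by
          obtain ⟨h4, h5⟩ := hm
          omega
        rw [h3, hm0, zero_mul]
      obtain ⟨c, hc⟩ := hPR (fun i => (Real.sqrt (l m1) : ℂ) * U i m1)
        (fun i => (Real.sqrt (-l m2) : ℂ) * U i m2) (by
        intro r
        have e : ∀ (ρ : ℝ) (m : Fin 3), ∑ i, v i r * ((ρ : ℂ) * U i m) =
            (ρ : ℂ) * ∑ i, v i r * U i m := by
          intro ρ m
          rw [Finset.mul_sum]
          refine Finset.sum_congr rfl fun i _ => ?_
          ring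
        rw [e, e, normSq_mul, normSq_mul, normSq_ofReal, normSq_ofReal,
          Real.mul_self_sqrt hm1.le, Real.mul_self_sqrt (by linarith)]
        linarith [hsum r])
      have h3 : ∀ i, (Real.sqrt (l m1) : ℂ) * U i m1 = c * ((Real.sqrt (-l m2) : ℂ) * U i m2) :=
        fun i => congrFun hc i
      have h4 : (Real.sqrt (l m1) : ℂ) = 0 := by
        have h5 := hUU m1 m1
        have h6 := hUU m1 m2
        rw [if_pos rfl] at h5
        rw [if_neg h12] at h6
        calc (Real.sqrt (l m1) : ℂ) = (Real.sqrt (l m1) : ℂ) *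
              ∑ i, (starRingEnd ℂ) (U i m1) * U i m1 := by rw [h5, mul_one]
          _ = ∑ i, (starRingEnd ℂ) (U i m1) * ((Real.sqrt (l m1) : ℂ) * U i m1) := by
              rw [Finset.mul_sum]
              refine Finset.sum_congr rfl fun i _ => ?_
              ring
          _ = c * (Real.sqrt (-l m2) : ℂ) * ∑ i, (starRingEnd ℂ) (U i m1) * U i m2 := by
              rw [Finset.mul_sum]
              refine Finset.sum_congr rfl fun i _ => ?_
              rw [h3 i]
              ring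
          _ = 0 := by rw [h6, mul_zero]
      have h5 : 0 < Real.sqrt (l m1) := Real.sqrt_pos.mpr hm1
      exact h5.ne' (by exact_mod_cast h4)
    · push Not at hn
      obtain ⟨m1, hm1⟩ := hp
      refine hvan m1 fun r => ?_
      have h1 := (Finset.sum_eq_zero_iff_of_nonneg (fun m _ =>
        mul_nonneg (hn m) (normSq_nonneg _))).mp (hform r) m1 (Finset.mem_univ _)
      rcases mul_eq_zero.mp h1 with h | h
      · exact absurd h hm1.ne'
      · exact h
  · push Not at hp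
    obtain ⟨m1, hm1⟩ := hlne
    refine hvan m1 fun r => ?_
    have h1 := (Finset.sum_eq_zero_iff_of_nonpos (fun m _ =>
      mul_nonpos_of_nonpos_of_nonneg (hp m) (normSq_nonneg _))).mp (hform r) m1 (Finset.mem_univ _)
    rcases mul_eq_zero.mp h1 with h | h
    · exact absurd h hm1
    · exact h


theorem exists_frame2 (n k : ℕ) (hn : 1 ≤ n) (hk : 2 ≤ k) :
    ∃ f : Fin (n + (3 * k - 4)) → EuclideanSpace ℂ (Fin n), IsFrame f ∧ Allows k f := by
  obtain ⟨p, rfl⟩ : ∃ p, n = p + 1 := ⟨n - 1, by omega⟩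
  obtain ⟨f, hf⟩ := (generic2 (p := p) (M := 3 * k - 4) k hk (by omega)).nonempty
  obtain ⟨g, hg⟩ : ∃ g : Fin (3 * k - 4) → EuclideanSpace ℂ (Fin (p + 1)),
    ∀ r, g r = WithLp.toLp 2 fun i => (starRingEnd ℂ) (f r i) := ⟨fun r => _, fun r => rfl⟩
  have hin : ∀ r x, inner ℂ (g r) x = ∑ i, f r i * x i := by
    intro r x
    rw [inner_eq, hg]
    refine Finset.sum_congr rfl fun i _ => ?_
    change (starRingEnd ℂ) ((starRingEnd ℂ) (f r i)) * x i = _
    rw [Complex.conj_conj]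
  obtain ⟨G, hG1, hG2⟩ : ∃ G : Fin (p + 1 + (3 * k - 4)) → EuclideanSpace ℂ (Fin (p + 1)),
      (∀ i, G (Fin.castAdd _ i) = EuclideanSpace.single i 1) ∧ ∀ r, G (Fin.natAdd _ r) = g r :=
    ⟨Fin.addCases (fun i => EuclideanSpace.single i 1) g, fun i => Fin.addCases_left _,
      fun r => Fin.addCases_right _⟩
  refine ⟨G, frame_of_single _ fun i => ⟨Fin.castAdd _ i, hG1 i⟩, ?_⟩
  intro x y hx hy hxy
  obtain ⟨c, hc, h3⟩ := hf x.ofLp y.ofLp hx (by
    intro i
    have h1 := hxy (Fin.castAdd _ i)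
    rw [hG1, EuclideanSpace.inner_single_left, EuclideanSpace.inner_single_left] at h1
    simpa using h1) (by
    intro r
    have h1 := hxy (Fin.natAdd _ r)
    rw [hG2, hin, hin] at h1
    exact h1)
  refine ⟨c, hc, ?_⟩
  ext i
  exact congrFun h3 i


theorem lower7 {n k N : ℕ} (hn : 3 ≤ n) (hk : 3 ≤ k) (hN : N ≤ 7)
    (f : Fin N → EuclideanSpace ℂ (Fin n)) (ha : Allows k f) : False := by
  obtain ⟨v, hv⟩ : ∃ v : Fin 3 → Fin N → ℂ, ∀ i r, v i r =
      inner ℂ (f r) (ext0 3 n (fun j => if i = j then 1 else 0)) := ⟨fun i r => _, fun i r => rfl⟩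
  have hin : ∀ r (x : Fin 3 → ℂ), inner ℂ (f r) (ext0 3 n x) = ∑ i, v i r * x i := by
    intro r x
    obtain ⟨L, hL⟩ : ∃ L : (Fin 3 → ℂ) →ₗ[ℂ] ℂ, ∀ x, L x = inner ℂ (f r) (ext0 3 n x) := by
      refine ⟨⟨⟨fun x => inner ℂ (f r) (ext0 3 n x), ?_⟩, ?_⟩, fun x => rfl⟩
      · intro x y
        rw [map_add, inner_add_right]
      · intro c x
        change inner ℂ (f r) (ext0 3 n (c • x)) = c • (inner ℂ (f r) (ext0 3 n x) : ℂ)
        rw [map_smul, inner_smul_right, smul_eq_mul]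
    rw [← hL, LinearMap.pi_apply_eq_sum_univ L x]
    refine Finset.sum_congr rfl fun i _ => ?_
    rw [hv, hL, smul_eq_mul, mul_comm]
  refine no7 hN v ?_
  intro x y hxy
  obtain ⟨c, -, h⟩ := ha (ext0 3 n x) (ext0 3 n y) ((ext0_sparse hn x).trans hk)
    ((ext0_sparse hn y).trans hk) (by
      intro r
      rw [hin, hin]
      have h1 := hxy r
      rw [Complex.normSq_eq_norm_sq, Complex.normSq_eq_norm_sq] at h1
      exact (sq_eq_sq₀ (norm_nonneg _) (norm_nonneg _)).mp h1)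
  refine ⟨c, ?_⟩
  ext i
  have h2 := congrArg (fun z : EuclideanSpace ℂ (Fin n) => z (Fin.castLE hn i)) h
  have h3 : ∀ z : Fin 3 → ℂ, (ext0 3 n z) (Fin.castLE hn i) = z i := by
    intro z
    exact dif_pos i.2
  have h4 : (ext0 3 n x) (Fin.castLE hn i) = c * (ext0 3 n y) (Fin.castLE hn i) := h2
  rw [h3, h3] at h4
  exact h4

theorem Nmin_le2 {n k : ℕ} (hn : 1 ≤ n) (hk : 2 ≤ k) : Nmin n k ≤ n + (3 * k - 4) :=
  Nat.sInf_le (exists_frame2 n k hn hk)

theorem Nmin_ge3 {n k : ℕ} (hk : 1 ≤ k) (hn : k ≤ n) : 3 * k - 2 ≤ Nmin n k := by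
  obtain ⟨f, -, ha⟩ := Nmin_mem (n := n) (k := k) (by omega) hk
  by_contra hcon
  exact lower3 hk hn (by omega) f ha

theorem Nmin_ge8 {n k : ℕ} (hk : 3 ≤ k) (hn : 3 ≤ n) : 8 ≤ Nmin n k := by
  obtain ⟨f, -, ha⟩ := Nmin_mem (n := n) (k := k) (by omega) (by omega)
  by_contra hcon
  exact lower7 hn hk (by omega) f ha

theorem result :
    -- no frame with at most four vectors allows `k`-sparse phase retrieval if `k ≥ 2`, `n ≥ 3`
    (∀ n k N : ℕ, 3 ≤ n → 2 ≤ k → N ≤ 4 → ∀ f : Fin N → EuclideanSpace ℂ (Fin n), IsFrame f →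
      ¬ Allows k f) ∧
    -- general bounds
    (∀ n k : ℕ, 1 ≤ k → k ≤ n →
      max n (3 * k - 2) ≤ Nmin n k ∧ Nmin n k ≤ max n (4 * k - 2)) ∧
    (∀ n k : ℕ, 2 ≤ k → k ≤ n → Nmin n k ≤ n + (3 * k - 4)) ∧
    (∀ k : ℕ, 2 ≤ k → Nmin (k + 1) k ≤ 4 * k - 3) ∧
    (∀ n k : ℕ, 1 ≤ k → 4 * k - 2 ≤ n → Nmin n k = n) ∧
    -- the cases `k = 1`, `k = 2` and `k = 3`
    (∀ n : ℕ, 1 ≤ n → Nmin n 1 = n) ∧
    (Nmin 2 2 = 4 ∧ Nmin 3 2 = 5 ∧ (Nmin 4 2 = 5 ∨ Nmin 4 2 = 6) ∧
      (Nmin 5 2 = 5 ∨ Nmin 5 2 = 6) ∧ (∀ n : ℕ, 6 ≤ n → Nmin n 2 = n)) ∧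
    (Nmin 3 3 = 8 ∧ (Nmin 4 3 = 8 ∨ Nmin 4 3 = 9) ∧
      (∀ n : ℕ, 5 ≤ n → n ≤ 9 → max 8 n ≤ Nmin n 3 ∧ Nmin n 3 ≤ 10) ∧
      (∀ n : ℕ, 10 ≤ n → Nmin n 3 = n)) := by
  have h2 : ∀ n k : ℕ, 1 ≤ k → 4 * k - 2 ≤ n → Nmin n k = n := by
    intro n k hk hn
    have h3 := Nmin_general (n := n) (k := k) (by omega) hk
    rw [max_eq_left hn] at h3
    exact le_antisymm h3 (Nmin_ge (by omega) hk)
  refine ⟨fun n k N hn hk hN f hf ha => lower hn hN f hf (allows_mono hk f ha),
    fun n k hk hn => ⟨max_le (Nmin_ge (by omega) hk) (Nmin_ge3 hk hn),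
      Nmin_general (by omega) hk⟩,
    fun n k hk hn => Nmin_le2 (by omega) hk, ?_, h2, ?_,
    ⟨le_antisymm (Nmin_le 2) (Nmin_ge3 (k := 2) (by norm_num) le_rfl),
    le_antisymm (Nmin_le 3) (five_le le_rfl le_rfl), ?_, ?_,
    fun n hn => h2 n 2 (by norm_num) hn⟩, ⟨?_, ?_, ?_, fun n hn => h2 n 3 (by norm_num) hn⟩⟩
  · intro k hk
    have e1 := Nmin_le2 (n := k + 1) (k := k) (by omega) hk
    omega
  · intro n hn
    rcases Nat.lt_or_ge n 2 with h | h
    · obtain rfl : n = 1 := by omega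
      exact Nmin_one 1 le_rfl
    · exact h2 n 1 le_rfl (by omega)
  · have e1 := five_le (n := 4) (k := 2) (by norm_num) le_rfl
    have e2 := Nmin_general (n := 4) (k := 2) (by norm_num) (by norm_num)
    norm_num at e2
    omega
  · have e1 := five_le (n := 5) (k := 2) (by norm_num) le_rfl
    have e2 := Nmin_general (n := 5) (k := 2) (by norm_num) (by norm_num)
    norm_num at e2
    omega
  · have e1 := Nmin_ge8 (n := 3) (k := 3) le_rfl le_rfl
    have e2 := Nmin_le2 (n := 3) (k := 3) (by norm_num) (by norm_num)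
    norm_num at e2
    omega
  · have e1 := Nmin_ge8 (n := 4) (k := 3) le_rfl (by norm_num)
    have e2 := Nmin_le2 (n := 4) (k := 3) (by norm_num) (by norm_num)
    norm_num at e2
    omega
  · intro n h5 h9
    refine ⟨max_le (Nmin_ge8 le_rfl (by omega)) (Nmin_ge (by omega) (by norm_num)), ?_⟩
    have e2 := Nmin_general (n := n) (k := 3) (by omega) (by norm_num)
    refine e2.trans (max_le (by omega) (by norm_num))

end Pool.Agent.Results.MP_32bf8a_an.TwoSparse
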